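import Pool.Agent.Q239.ZG.GALB
import Pool.Agent.Q271.ZC.Min

set_option autoImplicit false
set_option linter.unusedSectionVars false

/-! Project ZG, job GAL: the lattice is generated by small vectors. -/

namespace Pool.Agent.Q239.ZG.GL

open Matrix Pool.Agent.Q60.ED Pool.Agent.Q271.ZG Pool.Agent.Q251.ZG Pool.Agent.W437.HD
  Pool.Agent.Q271.ZC

theorem qc_mul {ι : Type} [Fintype ι] [DecidableEq ι] (A B : Matrix ι ι ℚ) : qc (A * B) = qc A * qc B := by
  unfold qc
  exact Matrix.map_mul (f := Rat.castHom ℂ)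

theorem qc_inj {ι : Type} [Fintype ι] [DecidableEq ι] {A B : Matrix ι ι ℚ} (h : qc A = qc B) : A = B := by
  ext i j
  have := congrFun (congrFun h i) j
  simp only [qc, Matrix.map_apply] at this
  exact_mod_cast this

theorem qc_zero {ι : Type} [Fintype ι] [DecidableEq ι] : qc (0 : Matrix ι ι ℚ) = 0 := by
  ext i j
  simp [qc]

theorem orb_pos' {G : Type} [Group G] {Ω : Type} [Fintype Ω] [MulAction G Ω] (α : Ω) : 1 ≤ orb G α := by
  classical
  unfold orb
  refine Finset.card_pos.2 ⟨α, ?_⟩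
  rw [Finset.mem_filter]
  exact ⟨Finset.mem_univ _, 1, one_smul _ _⟩

/-- **job GAL** -/
theorem main_GAL (hS : S_STAR) (hA : S_ADAPT) : S_GAL := by
  intro ι _ _ V t Y hn hId hY
  classical
  obtain ⟨D, hD1, hD2, hD3⟩ := minI_fin hS hA V
  have hsurj : Function.Surjective (fun i : ι => (⟨D i, hD1 i⟩ : Om V)) := by
    intro e
    obtain ⟨i, hi⟩ := hD2 e.1 e.2
    exact ⟨i, Subtype.ext hi⟩
  let _ : Fintype (Om V) := Fintype.ofSurjective _ hsurj
  have hcard : Fintype.card (Om V) ≤ Fintype.card ι := Fintype.card_le_of_surjective _ hsurj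
  have hcard1 : 1 ≤ Fintype.card (Om V) := by
    obtain ⟨i⟩ : Nonempty ι := Fintype.card_pos_iff.1 (by omega)
    exact Fintype.card_pos_iff.2 ⟨⟨D i, hD1 i⟩⟩
  have hc : ∀ r ∈ Ctr (hLie V), (∀ α : Om V, r * α.1 = 0) → r = 0 := fun r hr h =>
    hD3 r hr fun i => h ⟨D i, hD1 i⟩
  have hs : ∀ α : Om V, ∃ k : ℤ, (α.1 * H0 V).trace = k ∧ |k| ≤ Fintype.card ι * V.d := fun α =>
    s_int α.2.1 α.2.2.1
  choose sI hsI1 hsI2 using hs
  have htr : ∀ (σ : RingAut ℂ) (α : Om V), (α.1 * (H0 V).map σ).trace = sI (σ⁻¹ • α) := by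
    intro σ α
    have h1 : (α.1 * (H0 V).map σ) = ((σ⁻¹ • α).1 * H0 V).map σ := by
      rw [map_mul', act_val]
      congr 1
      exact (map_symm' σ α.1).symm
    rw [h1, trace_map, hsI1, map_intCast]
  -- the group
  set G : Subgroup (Equiv.Perm (Om V)) := (MulAction.toPermHom (RingAut ℂ) (Om V)).range with hG
  have hGσ : ∀ g : G, ∃ σ : RingAut ℂ, ∀ α : Om V, g • α = σ • α := by
    rintro ⟨p, hp⟩
    obtain ⟨σ, hσ⟩ := hp
    refine ⟨σ, fun α => ?_⟩
    subst hσ
    rfl
  have hσG : ∀ σ : RingAut ℂ, ∃ g : G, ∀ α : Om V, g • α = σ • α := fun σ =>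
    ⟨⟨_, ⟨σ, rfl⟩⟩, fun α => rfl⟩
  set s : Unit → Om V → ℚ := fun _ α => (sI α : ℚ) with hsdef
  have hrel : ∀ n : Om V → ℚ, n ∈ relQ G s ↔ ∀ σ : RingAut ℂ, ∑ α, n α * (sI (σ • α) : ℚ) = 0 := by
    intro n
    constructor
    · intro h σ
      obtain ⟨g, hg⟩ := hσG σ
      have h1 := h g ()
      rw [← h1]
      exact Finset.sum_congr rfl fun α _ => by rw [hsdef, hg]
    · intro h g j
      obtain ⟨σ, hσ⟩ := hGσ g
      rw [← h σ]
      exact Finset.sum_congr rfl fun α _ => by rw [hsdef, hσ]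
  have hzt : ∀ (n : Om V → ℚ) (σ : RingAut ℂ), (Em V (fun α => (n α : ℂ)) * (H0 V).map σ).trace =
      ((∑ α, n α * (sI (σ⁻¹ • α) : ℚ) : ℚ) : ℂ) := by
    intro n σ
    rw [Em, Finset.sum_mul, Matrix.trace_sum]
    push_cast
    refine Finset.sum_congr rfl fun α _ => ?_
    rw [Matrix.smul_mul, Matrix.trace_smul, htr, smul_eq_mul]
  -- orbits
  let Q := Quotient (MulAction.orbitRel G (Om V))
  let _ : Fintype Q := Fintype.ofFinite _
  set k := Fintype.card Q with hk
  obtain ⟨eq⟩ : Nonempty (Fin k ≃ Q) := ⟨(Fintype.equivFin Q).symm⟩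
  have hmk : ∀ (σ : RingAut ℂ) (α : Om V), (Quotient.mk _ (σ • α) : Q) = Quotient.mk _ α := by
    intro σ α
    obtain ⟨g, hg⟩ := hσG σ
    exact Quotient.sound ⟨g, hg α⟩
  have hkt : k ≤ t := by
    set χ : Fin k → Om V → ℂ := fun i α => if (Quotient.mk _ α : Q) = eq i then 1 else 0 with hχ
    have hinv : ∀ i (σ : RingAut ℂ), (Em V (χ i)).map σ = Em V (χ i) := by
      intro i σ
      rw [Em_map]
      congr 1
      funext α
      simp only [hχ]
      rw [hmk]
      split_ifs <;> simp
    have hrat : ∀ i a b, ∃ q : ℚ, (Em V (χ i)) a b = q := by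
      intro i a b
      by_contra hno
      push Not at hno
      obtain ⟨σ, hσ⟩ := exists_move hno
      apply hσ
      have := congrFun (congrFun (hinv i σ) a) b
      exact this
    choose R hR using hrat
    refine hId k (fun i => Matrix.of (R i)) (fun i => ?_) (fun i j hij => ?_)
    · have hq : qc (Matrix.of (R i)) = Em V (χ i) := by
        ext a b
        rw [hR i a b]
        rfl
      refine ⟨fun h0 => ?_, ?_, by rw [hq]; exact Em_mem _⟩
      · rw [h0, qc_zero] at hq
        have h1 : Em V (fun _ : Om V => (0 : ℂ)) = 0 := by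
          rw [Em]; exact Finset.sum_eq_zero fun α _ => zero_smul _ _
        have h2 := congrFun (Em_inj (h1.trans hq)) (eq i).out
        simp only [hχ] at h2
        rw [if_pos (Quotient.out_eq _)] at h2
        exact zero_ne_one h2
      · apply qc_inj
        rw [qc_mul, hq, Em_Em]
        congr 1
        funext α
        simp only [hχ]
        split_ifs <;> simp
    · have hq : ∀ i, qc (Matrix.of (R i)) = Em V (χ i) := by
        intro i
        ext a b
        rw [hR i a b]
        rfl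
      apply qc_inj
      rw [qc_mul, hq, hq, Em_Em, qc_zero]
      have h1 : Em V (fun _ : Om V => (0 : ℂ)) = 0 := by
        rw [Em]; exact Finset.sum_eq_zero fun α _ => zero_smul _ _
      rw [← h1]
      congr 1
      funext α
      simp only [hχ]
      by_cases h2 : (Quotient.mk _ α : Q) = eq i
      · rw [if_pos h2, if_neg, mul_zero]
        intro h3
        exact hij (eq.injective (h2.symm.trans h3))
      · rw [if_neg h2, zero_mul]
  -- the bound
  have hbound : relQ G s ≤ small G s Y := by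
    refine bound (G := G) s k (fun i => (eq i).out) ?_ (fun _ _ => 1) ?_ (Fintype.card ι * V.d) ?_ ?_ hcard1 Y ?_
    · intro α
      refine ⟨eq.symm (Quotient.mk _ α), ?_⟩
      rw [Equiv.apply_symm_apply]
      have h1 : (MulAction.orbitRel G (Om V)).r (Quotient.out (Quotient.mk (MulAction.orbitRel G (Om V)) α)) α :=
        Quotient.exact (Quotient.out_eq (Quotient.mk (MulAction.orbitRel G (Om V)) α))
      obtain ⟨g, hg⟩ := h1
      refine ⟨g⁻¹, ?_⟩
      rw [← hg]
      exact inv_smul_smul _ _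
    · intro j α
      refine ⟨le_rfl, ?_⟩
      exact orb_pos' α
    · intro j α
      rw [hsdef]
      have := hsI2 α
      push_cast
      exact_mod_cast this
    · intro T _ j α
      refine ⟨∑ β, T α β * sI β, ?_⟩
      rw [hsdef]
      simp only [Nat.cast_one, one_mul, Matrix.mulVec, dotProduct, Matrix.map_apply]
      push_cast
      rfl
    · refine le_trans (Real.exp_le_exp.2 ?_) hY
      have c1 : (1 : ℝ) ≤ Fintype.card (Om V) := by exact_mod_cast hcard1
      have c2 : (Fintype.card (Om V) : ℝ) ≤ Fintype.card ι := by exact_mod_cast hcard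
      have c3 : (k : ℝ) ≤ t := by exact_mod_cast hkt
      have c4 : (0 : ℝ) ≤ Fintype.card ι * V.d := by positivity
      have m1 : min (Real.sqrt (k * Fintype.card (Om V))) ((Fintype.card (Om V) : ℝ) ^ (2 / 3 : ℝ)) ≤
          min (Real.sqrt (t * Fintype.card ι)) ((Fintype.card ι : ℝ) ^ (2 / 3 : ℝ)) := by
        refine min_le_min (Real.sqrt_le_sqrt (by gcongr)) ?_
        exact Real.rpow_le_rpow (by positivity) c2 (by norm_num)
      have m0 : 0 ≤ min (Real.sqrt (k * Fintype.card (Om V))) ((Fintype.card (Om V) : ℝ) ^ (2 / 3 : ℝ)) :=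
        le_min (Real.sqrt_nonneg _) (by positivity)
      have l1 : Real.log (3 * Fintype.card (Om V) * (((Fintype.card ι * V.d : ℕ) : ℝ) + 1)) ≤
          Real.log (3 * Fintype.card ι * (Fintype.card ι * V.d + 1)) := by
        push_cast
        refine Real.log_le_log (by positivity) ?_
        gcongr
      have l0 : 0 ≤ Real.log (3 * Fintype.card (Om V) * (((Fintype.card ι * V.d : ℕ) : ℝ) + 1)) := by
        apply Real.log_nonneg
        push_cast
        nlinarith
      exact mul_le_mul (mul_le_mul_of_nonneg_left m1 (by norm_num)) l1 l0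
        (mul_nonneg (by norm_num) (m0.trans m1))
  -- conclusion
  let L : (Om V → ℚ) →ₗ[ℚ] Matrix ι ι ℂ :=
    { toFun := fun n => Em V fun α => (n α : ℂ)
      map_add' := by
        intro a b
        rw [← Em_add]
        congr 1
        funext α
        simp
      map_smul' := by
        intro q a
        rw [Em, Em, Finset.smul_sum]
        refine Finset.sum_congr rfl fun α _ => ?_
        rw [Pi.smul_apply, smul_eq_mul, Rat.cast_mul, mul_smul, RingHom.id_apply]
        ext i j
        simp [Rat.smul_def] }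
  have hLap : ∀ n, L n = Em V fun α => (n α : ℂ) := fun n => rfl
  intro Y' z hz
  obtain ⟨f, rfl⟩ := exists_Em hc hz.1
  have hint := (eigInt_iff hc f Y').1 hz.2.2
  choose n hn1 hn2 using hint
  set m : Om V → ℚ := fun α => (n α : ℚ) with hm
  have hLm : L m = Em V f := by
    rw [hLap]
    congr 1
    funext α
    rw [hn2, hm]
    simp
  have hmrel : m ∈ relQ G s := by
    rw [hrel]
    intro σ
    have h1 := hzt m σ⁻¹
    rw [← hLap, hLm, inv_inv] at h1
    have h2 : (Em V f * (H0 V).map (σ⁻¹ : RingAut ℂ)).trace = 0 :=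
      hz.2.1 _ (hH_mem V (σ⁻¹ : RingAut ℂ))
    rw [h2] at h1
    exact_mod_cast h1.symm
  have h3 := hbound hmrel
  rw [← hLm]
  have h4 : L m ∈ (small G s Y).map L := ⟨m, h3, rfl⟩
  rw [small, Submodule.map_span] at h4
  refine Submodule.span_mono ?_ h4
  rintro _ ⟨q, ⟨hq1, hq2⟩, rfl⟩
  refine ⟨Em_mem _, tr_zero (Em_mem _) fun σ => ?_, ?_⟩
  · have h5 := hzt q σ
    rw [hLap, h5]
    have h6 := (hrel q).1 hq1 (σ⁻¹ : RingAut ℂ)
    rw [h6]
    simp
  · rw [hLap, eigInt_iff hc]
    intro α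
    obtain ⟨w, hw1, hw2⟩ := hq2 α
    exact ⟨w, hw1, by rw [hw2]; simp⟩

end Pool.Agent.Q239.ZG.GL
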