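import Pool.Agent.Q271.ZG.Basic
import Pool.Agent.Q271.ZG.Stm

set_option autoImplicit false
set_option linter.unusedSectionVars false

/-! Project ZG, job POL: from unitary to invertible matrices. -/

namespace Pool.Agent.Q239.ZG.PL

open Matrix Pool.Agent.Q60.ED Pool.Agent.Q271.ZG

variable {ι : Type} [Fintype ι] [DecidableEq ι]

theorem Tw_star {𝔤 : Submodule ℂ (Matrix ι ι ℂ)} (hs : IsStar 𝔤) {i j : ℕ}
    {M : Matrix (Fin j → ι) (Fin i → ι) ℂ} (h : Tw 𝔤 i j M) : Tw 𝔤 j i Mᴴ := by
  intro x hx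
  have h1 := h xᴴ (hs x hx)
  rw [dTP_conjTranspose, dTP_conjTranspose] at h1
  have h2 := congrArg Matrix.conjTranspose h1
  rw [Matrix.conjTranspose_mul, Matrix.conjTranspose_mul, Matrix.conjTranspose_conjTranspose,
    Matrix.conjTranspose_conjTranspose] at h2
  exact h2.symm

theorem Cm_star {i j : ℕ} {g : Matrix ι ι ℂ} {M : Matrix (Fin j → ι) (Fin i → ι) ℂ} (h : Cm g j i Mᴴ) :
    Cm gᴴ i j M := by
  have h2 := congrArg Matrix.conjTranspose h
  rw [Matrix.conjTranspose_mul, Matrix.conjTranspose_mul, Matrix.conjTranspose_conjTranspose,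
    ← TP_conjTranspose, ← TP_conjTranspose] at h2
  exact h2.symm

theorem Cm_mul {i j : ℕ} {g g' : Matrix ι ι ℂ} {M : Matrix (Fin j → ι) (Fin i → ι) ℂ} (h : Cm g i j M)
    (h' : Cm g' i j M) : Cm (g * g') i j M := by
  unfold Cm at *
  rw [TP_mul, TP_mul, Matrix.mul_assoc, h', ← Matrix.mul_assoc, h, Matrix.mul_assoc]

/-- commutation of a diagonalised matrix -/
theorem Cm_diag {i j : ℕ} {W : Matrix ι ι ℂ} (hW : Wᴴ * W = 1) (φ : ι → ℂ)
    (M : Matrix (Fin j → ι) (Fin i → ι) ℂ) :
    Cm (W * diagonal φ * Wᴴ) i j M ↔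
      ∀ J I, (TP Wᴴ j * M * TP W i) J I ≠ 0 → ∏ k, φ (J k) = ∏ k, φ (I k) := by
  have hW' : W * Wᴴ = 1 := mul_eq_one_comm.1 hW
  set M' := TP Wᴴ j * M * TP W i with hM'
  have hM : M = TP W j * M' * TP Wᴴ i := by
    rw [hM']
    have : TP W j * (TP Wᴴ j * M * TP W i) * TP Wᴴ i = (TP W j * TP Wᴴ j) * M * (TP W i * TP Wᴴ i) := by
      simp only [Matrix.mul_assoc]
    rw [this, TP_inv hW', TP_inv hW', Matrix.one_mul, Matrix.mul_one]
  have key : Cm (W * diagonal φ * Wᴴ) i j M ↔ TP (diagonal φ) j * M' = M' * TP (diagonal φ) i := by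
    unfold Cm
    constructor
    · intro h
      have h1 : TP Wᴴ j * (TP (W * diagonal φ * Wᴴ) j * M) * TP W i =
          TP Wᴴ j * (M * TP (W * diagonal φ * Wᴴ) i) * TP W i := by rw [h]
      rw [TP_mul, TP_mul, TP_mul, TP_mul] at h1
      have h2 : TP Wᴴ j * (TP W j * TP (diagonal φ) j * TP Wᴴ j * M) * TP W i =
          (TP Wᴴ j * TP W j) * TP (diagonal φ) j * (TP Wᴴ j * M * TP W i) := by
        simp only [Matrix.mul_assoc]
      have h3 : TP Wᴴ j * (M * (TP W i * TP (diagonal φ) i * TP Wᴴ i)) * TP W i =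
          (TP Wᴴ j * M * TP W i) * TP (diagonal φ) i * (TP Wᴴ i * TP W i) := by
        simp only [Matrix.mul_assoc]
      rw [h2, h3, TP_inv hW, TP_inv hW, Matrix.one_mul, Matrix.mul_one] at h1
      exact h1
    · intro h
      rw [hM, TP_mul, TP_mul, TP_mul, TP_mul]
      have h2 : TP W j * TP (diagonal φ) j * TP Wᴴ j * (TP W j * M' * TP Wᴴ i) =
          TP W j * TP (diagonal φ) j * (TP Wᴴ j * TP W j) * M' * TP Wᴴ i := by
        simp only [Matrix.mul_assoc]
      have h3 : TP W j * M' * TP Wᴴ i * (TP W i * TP (diagonal φ) i * TP Wᴴ i) =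
          TP W j * M' * (TP Wᴴ i * TP W i) * TP (diagonal φ) i * TP Wᴴ i := by
        simp only [Matrix.mul_assoc]
      rw [h2, h3, TP_inv hW, TP_inv hW, Matrix.mul_one, Matrix.mul_one, Matrix.mul_assoc (TP W j), h,
        ← Matrix.mul_assoc]
  rw [key, TP_diagonal, TP_diagonal]
  constructor
  · intro h J I hne
    have h1 := congrFun (congrFun h J) I
    rw [Matrix.diagonal_mul, Matrix.mul_diagonal, mul_comm] at h1
    exact mul_left_cancel₀ hne h1
  · intro h
    ext J I
    rw [Matrix.diagonal_mul, Matrix.mul_diagonal]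
    by_cases h0 : M' J I = 0
    · rw [h0]; ring
    · rw [h J I h0, mul_comm]

theorem eq_zero_of_exp {d : ℝ} (h : ∀ t : ℝ, Complex.exp (Complex.I * (t * d : ℝ)) = 1) : d = 0 := by
  by_contra hd
  have h1 := h (Real.pi / d)
  rw [div_mul_cancel₀ _ hd, mul_comm, Complex.exp_pi_mul_I] at h1
  norm_num at h1

/-- **job POL** -/
theorem main_POL : S_POL := by
  intro ι _ _ 𝔤 N hs hU h hdet hh
  classical
  have hhs : ∀ i j, i + j ≤ N → ∀ M, Tw 𝔤 i j M → Cm hᴴ i j M := fun i j hij M hM =>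
    Cm_star (hh j i (by omega) _ (Tw_star hs hM))
  have hq : ∀ i j, i + j ≤ N → ∀ M, Tw 𝔤 i j M → Cm (hᴴ * h) i j M := fun i j hij M hM =>
    Cm_mul (hhs i j hij M hM) (hh i j hij M hM)
  have hherm : (hᴴ * h).IsHermitian := Matrix.isHermitian_conjTranspose_mul_self h
  set W : Matrix ι ι ℂ := (hherm.eigenvectorUnitary : Matrix ι ι ℂ) with hWdef
  have hW : Wᴴ * W = 1 := Unitary.coe_star_mul_self hherm.eigenvectorUnitary
  have hW' : W * Wᴴ = 1 := mul_eq_one_comm.1 hW
  set lam := hherm.eigenvalues with hlam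
  have hspec : hᴴ * h = W * diagonal (fun i => (lam i : ℂ)) * Wᴴ := by
    have := hherm.spectral_theorem
    rw [Unitary.conjStarAlgAut_apply] at this
    exact this
  have hpos : ∀ i, 0 < lam i := by
    intro i
    have h1 : (h * W)ᴴ * (h * W) = diagonal (fun i => (lam i : ℂ)) := by
      rw [Matrix.conjTranspose_mul]
      have : Wᴴ * hᴴ * (h * W) = Wᴴ * (hᴴ * h) * W := by simp only [Matrix.mul_assoc]
      rw [this, hspec]
      have : Wᴴ * (W * diagonal (fun i => (lam i : ℂ)) * Wᴴ) * W = (Wᴴ * W) * diagonal (fun i => (lam i : ℂ)) * (Wᴴ * W) := by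
        simp only [Matrix.mul_assoc]
      rw [this, hW, Matrix.one_mul, Matrix.mul_one]
    have h2 := congrFun (congrFun h1 i) i
    rw [Matrix.mul_apply, diagonal_apply_eq] at h2
    have h3 : ∑ k, ‖(h * W) k i‖ ^ 2 = lam i := by
      have : ((∑ k, ‖(h * W) k i‖ ^ 2 : ℝ) : ℂ) = (lam i : ℂ) := by
        rw [← h2]
        push_cast
        refine Finset.sum_congr rfl fun k _ => ?_
        rw [Matrix.conjTranspose_apply, Complex.star_def, mul_comm, Complex.mul_conj, Complex.normSq_eq_norm_sq]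
        push_cast
        rfl
      exact_mod_cast this
    have h4 : 0 ≤ lam i := by
      rw [← h3]; exact Finset.sum_nonneg fun k _ => by positivity
    refine lt_of_le_of_ne h4 fun h5 => ?_
    have h6 : (hᴴ * h).det = 0 := by
      rw [hspec, Matrix.det_mul, Matrix.det_mul, Matrix.det_diagonal,
        Finset.prod_eq_zero (Finset.mem_univ i) (by rw [← h5]; simp)]
      ring
    rw [Matrix.det_mul, Matrix.det_conjTranspose] at h6
    rcases mul_eq_zero.1 h6 with h7 | h7
    · exact hdet (star_eq_zero.1 h7)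
    · exact hdet h7
  -- the condition for all `M`
  have hlogprod : ∀ {n : ℕ} (J : Fin n → ι), ∏ k, (lam (J k) : ℂ) = ((Real.exp (∑ k, Real.log (lam (J k))) : ℝ) : ℂ) := by
    intro n J
    rw [Real.exp_sum]
    push_cast
    refine Finset.prod_congr rfl fun k _ => ?_
    rw [← Complex.ofReal_exp, Real.exp_log (hpos _)]
  have hall : ∀ i j M, Tw 𝔤 i j M → ∀ J I, (TP Wᴴ j * M * TP W i) J I ≠ 0 →
      ∑ k, Real.log (lam (J k)) = ∑ k, Real.log (lam (I k)) := by
    intro i j M hM J I hne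
    have hut : ∀ t : ℝ, Cm (W * diagonal (fun l => Complex.exp (Complex.I * (t * Real.log (lam l) : ℝ))) * Wᴴ) i j M := by
      intro t
      refine hU _ ?_ ?_ i j M hM
      · rw [Matrix.conjTranspose_mul, Matrix.conjTranspose_mul, Matrix.conjTranspose_conjTranspose,
          Matrix.diagonal_conjTranspose]
        have : ∀ D D' : Matrix ι ι ℂ, W * D * Wᴴ * (W * (D' * Wᴴ)) = W * (D * (Wᴴ * W) * D') * Wᴴ := by
          intro D D'; simp only [Matrix.mul_assoc]
        rw [this, hW, Matrix.mul_one, Matrix.diagonal_mul_diagonal]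
        have h1 : (diagonal fun l => Complex.exp (Complex.I * (t * Real.log (lam l) : ℝ)) *
            (star fun l => Complex.exp (Complex.I * (t * Real.log (lam l) : ℝ))) l) = (1 : Matrix ι ι ℂ) := by
          rw [← Matrix.diagonal_one]
          congr 1
          funext l
          rw [Pi.star_apply, Complex.star_def, ← Complex.exp_conj, map_mul, Complex.conj_I, Complex.conj_ofReal,
            ← Complex.exp_add]
          simp
        rw [h1, Matrix.mul_one, hW']
      · intro i' j' hij' M' hM'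
        rw [Cm_diag hW]
        intro J' I' hne'
        have h1 := (Cm_diag hW _ M').1 (by rw [← hspec]; exact hq i' j' hij' M' hM') J' I' hne'
        simp only [hlogprod] at h1
        have h2 : ∑ k, Real.log (lam (J' k)) = ∑ k, Real.log (lam (I' k)) :=
          Real.exp_injective (by exact_mod_cast h1)
        rw [← Complex.exp_sum, ← Complex.exp_sum]
        congr 1
        rw [← Finset.mul_sum, ← Finset.mul_sum]
        congr 1
        push_cast
        rw [← Finset.mul_sum, ← Finset.mul_sum]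
        congr 1
        exact_mod_cast h2
    have h3 : ∀ t : ℝ, Complex.exp (Complex.I * (t * (∑ k, Real.log (lam (J k)) - ∑ k, Real.log (lam (I k))) : ℝ)) = 1 := by
      intro t
      have h4 := (Cm_diag hW _ M).1 (hut t) J I hne
      rw [← Complex.exp_sum, ← Complex.exp_sum, ← Finset.mul_sum, ← Finset.mul_sum] at h4
      have h5 : Complex.I * (t * (∑ k, Real.log (lam (J k)) - ∑ k, Real.log (lam (I k))) : ℝ) =
          Complex.I * ∑ k, ((t * Real.log (lam (J k)) : ℝ) : ℂ) - Complex.I * ∑ k, ((t * Real.log (lam (I k)) : ℝ) : ℂ) := by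
        push_cast
        rw [← Finset.mul_sum, ← Finset.mul_sum]
        ring
      rw [h5, Complex.exp_sub, h4, div_self (Complex.exp_ne_zero _)]
    exact sub_eq_zero.1 (eq_zero_of_exp h3)
  -- the powers
  have hpow : ∀ (s : ℝ) (i j : ℕ) (M), Tw 𝔤 i j M →
      Cm (W * diagonal (fun l => ((Real.exp (s * Real.log (lam l)) : ℝ) : ℂ)) * Wᴴ) i j M := by
    intro s i j M hM
    rw [Cm_diag hW]
    intro J I hne
    rw [← Complex.ofReal_prod, ← Complex.ofReal_prod, ← Real.exp_sum, ← Real.exp_sum, ← Finset.mul_sum,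
      ← Finset.mul_sum, hall i j M hM J I hne]
  set p : ℝ → Matrix ι ι ℂ := fun s => W * diagonal (fun l => ((Real.exp (s * Real.log (lam l)) : ℝ) : ℂ)) * Wᴴ with hp
  have hpmul : ∀ s s' : ℝ, p s * p s' = p (s + s') := by
    intro s s'
    simp only [hp]
    have : ∀ D D' : Matrix ι ι ℂ, W * D * Wᴴ * (W * D' * Wᴴ) = W * (D * (Wᴴ * W) * D') * Wᴴ := by
      intro D D'; simp only [Matrix.mul_assoc]
    rw [this, hW, Matrix.mul_one, Matrix.diagonal_mul_diagonal]
    congr 3
    funext l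
    rw [← Complex.ofReal_mul, ← Real.exp_add, add_mul]
  have hp0 : p 0 = 1 := by
    simp only [hp, zero_mul, Real.exp_zero, Complex.ofReal_one]
    rw [show (diagonal fun _ : ι => (1 : ℂ)) = (1 : Matrix ι ι ℂ) from Matrix.diagonal_one, Matrix.mul_one, hW']
  have hp1 : p 1 = hᴴ * h := by
    simp only [hp, one_mul]
    rw [hspec]
    congr 3
    funext l
    rw [Real.exp_log (hpos l)]
  have hpstar : ∀ s, (p s)ᴴ = p s := by
    intro s
    simp only [hp]
    rw [Matrix.conjTranspose_mul, Matrix.conjTranspose_mul, Matrix.conjTranspose_conjTranspose,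
      Matrix.diagonal_conjTranspose, ← Matrix.mul_assoc]
    congr 3
    funext l
    rw [Pi.star_apply, Complex.star_def, Complex.conj_ofReal]
  set u := h * p (-(1 / 2)) with hu
  have huu : u * uᴴ = 1 := by
    refine mul_eq_one_comm.1 ?_
    rw [hu, Matrix.conjTranspose_mul, hpstar]
    have : p (-(1 / 2)) * hᴴ * (h * p (-(1 / 2))) = p (-(1 / 2)) * (hᴴ * h) * p (-(1 / 2)) := by
      simp only [Matrix.mul_assoc]
    rw [this, ← hp1, hpmul, hpmul]
    have : (-(1 / 2) + 1 + -(1 / 2) : ℝ) = 0 := by norm_num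
    rw [this, hp0]
  have hucm := hU u huu fun i j hij M hM => Cm_mul (hh i j hij M hM) (hpow _ i j M hM)
  have hfac : h = u * p (1 / 2) := by
    rw [hu, Matrix.mul_assoc, hpmul]
    have : (-(1 / 2) + 1 / 2 : ℝ) = 0 := by norm_num
    rw [this, hp0, Matrix.mul_one]
  intro i j M hM
  rw [hfac]
  exact Cm_mul (hucm i j M hM) (hpow _ i j M hM)

end Pool.Agent.Q239.ZG.PL
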