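import Pool.Agent.Q271.ZG.Stm

set_option autoImplicit false
set_option linter.unusedSectionVars false

/-! Project ZG, job ROOT: simple systems of star-stable matrix Lie algebras. -/

namespace Pool.Agent.Q239.ZG

open Matrix Pool.Agent.Q60.ED Pool.Agent.Q271.ZG Polynomial

variable {ι : Type} [Fintype ι] [DecidableEq ι]

/-! ### Diagonal matrices -/

theorem dg_mul (s : ι → ℝ) (y : Matrix ι ι ℂ) (i j : ι) : (dg s * y) i j = (s i : ℂ) * y i j := by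
  rw [dg, Matrix.diagonal_mul]

theorem mul_dg (s : ι → ℝ) (y : Matrix ι ι ℂ) (i j : ι) : (y * dg s) i j = y i j * (s j : ℂ) := by
  rw [dg, Matrix.mul_diagonal]

theorem dg_add (s t : ι → ℝ) : dg (s + t) = dg s + dg t := by
  ext i j
  by_cases h : i = j
  · subst h; simp [dg]
  · simp [dg, h]

theorem dg_smul (c : ℝ) (s : ι → ℝ) : dg (c • s) = (c : ℂ) • dg s := by
  ext i j
  by_cases h : i = j
  · subst h; simp [dg]
  · simp [dg, h]

theorem dg_neg (s : ι → ℝ) : dg (-s) = - dg s := by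
  ext i j
  by_cases h : i = j
  · subst h; simp [dg]
  · simp [dg, h]

theorem dg_sub (s t : ι → ℝ) : dg (s - t) = dg s - dg t := by
  ext i j
  by_cases h : i = j
  · subst h; simp [dg]
  · simp [dg, h]

/-! ### the norm -/

/-- the square of the Hilbert-Schmidt norm -/
noncomputable def Nm (y : Matrix ι ι ℂ) : ℝ := ∑ i, ∑ j, ‖y i j‖ ^ 2

theorem Nm_nonneg (y : Matrix ι ι ℂ) : 0 ≤ Nm y :=
  Finset.sum_nonneg fun i _ => Finset.sum_nonneg fun j _ => by positivity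

theorem Nm_eq_zero {y : Matrix ι ι ℂ} (h : Nm y = 0) : y = 0 := by
  ext i j
  have h1 := (Finset.sum_eq_zero_iff_of_nonneg (fun i _ => Finset.sum_nonneg fun j _ => by positivity)).1 h i
    (Finset.mem_univ i)
  have h2 := (Finset.sum_eq_zero_iff_of_nonneg (fun j _ => by positivity)).1 h1 j (Finset.mem_univ j)
  simpa using h2

theorem Nm_pos {y : Matrix ι ι ℂ} (h : y ≠ 0) : 0 < Nm y :=
  lt_of_le_of_ne (Nm_nonneg y) fun h1 => h (Nm_eq_zero h1.symm)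

theorem tr_Nm (y : Matrix ι ι ℂ) : (y * yᴴ).trace = (Nm y : ℂ) := by
  unfold Nm
  rw [Matrix.trace]
  push_cast
  refine Finset.sum_congr rfl fun i _ => ?_
  rw [Matrix.diag_apply, Matrix.mul_apply]
  refine Finset.sum_congr rfl fun j _ => ?_
  rw [Matrix.conjTranspose_apply, Complex.star_def, Complex.mul_conj, Complex.normSq_eq_norm_sq]
  push_cast
  rfl

theorem dp_nonneg (α : ι → ℝ) : 0 ≤ α ⬝ᵥ α := Finset.sum_nonneg fun _ _ => mul_self_nonneg _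

/-- the adjunction -/
theorem tr_adj (e y w : Matrix ι ι ℂ) : ((e * y - y * e) * w).trace = (y * (w * e - e * w)).trace := by
  rw [Matrix.sub_mul, Matrix.mul_sub, Matrix.trace_sub, Matrix.trace_sub]
  congr 1
  · rw [Matrix.mul_assoc, Matrix.trace_mul_comm e, Matrix.mul_assoc]
  · rw [Matrix.mul_assoc]

/-! ### Root spaces -/

/-- the root space of `α` -/
def G (𝔤 : Submodule ℂ (Matrix ι ι ℂ)) (α : ι → ℝ) (y : Matrix ι ι ℂ) : Prop :=
  y ∈ 𝔤 ∧ ∀ s : ι → ℝ, dg s ∈ 𝔤 → ∀ i j, y i j ≠ 0 → s i - s j = α ⬝ᵥ s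

variable {𝔤 : Submodule ℂ (Matrix ι ι ℂ)} {ρ : ι → ℝ}

theorem G_star (hs : IsStar 𝔤) {α : ι → ℝ} {y : Matrix ι ι ℂ} (h : G 𝔤 α y) : G 𝔤 (-α) yᴴ := by
  refine ⟨hs y h.1, fun s hs i j hij => ?_⟩
  have h1 : y j i ≠ 0 := by
    intro h0; apply hij; rw [Matrix.conjTranspose_apply, h0, star_zero]
  have h2 := h.2 s hs j i h1
  rw [neg_dotProduct, ← h2]; ring

theorem G_br (hL : IsLie 𝔤) {α β : ι → ℝ} {y z : Matrix ι ι ℂ} (hy : G 𝔤 α y) (hz : G 𝔤 β z) :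
    G 𝔤 (α + β) (y * z - z * y) := by
  refine ⟨hL y hy.1 z hz.1, fun s hs i j hij => ?_⟩
  have h1 : (y * z) i j ≠ 0 ∨ (z * y) i j ≠ 0 := by
    by_contra h
    push Not at h
    apply hij
    rw [Matrix.sub_apply, h.1, h.2, sub_zero]
  rcases h1 with h1 | h1
  · rw [Matrix.mul_apply] at h1
    obtain ⟨k, _, hk⟩ := Finset.exists_ne_zero_of_sum_ne_zero h1
    have h2 := hy.2 s hs i k (left_ne_zero_of_mul hk)
    have h3 := hz.2 s hs k j (right_ne_zero_of_mul hk)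
    rw [add_dotProduct, ← h2, ← h3]; ring
  · rw [Matrix.mul_apply] at h1
    obtain ⟨k, _, hk⟩ := Finset.exists_ne_zero_of_sum_ne_zero h1
    have h2 := hz.2 s hs i k (left_ne_zero_of_mul hk)
    have h3 := hy.2 s hs k j (right_ne_zero_of_mul hk)
    rw [add_dotProduct, ← h2, ← h3]; ring

theorem G_smul {α : ι → ℝ} {y : Matrix ι ι ℂ} (h : G 𝔤 α y) (c : ℂ) : G 𝔤 α (c • y) := by
  refine ⟨𝔤.smul_mem c h.1, fun s hs i j hij => h.2 s hs i j ?_⟩
  intro h0; apply hij; rw [Matrix.smul_apply, h0, smul_zero]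

theorem G_sub {α : ι → ℝ} {y z : Matrix ι ι ℂ} (hy : G 𝔤 α y) (hz : G 𝔤 α z) : G 𝔤 α (y - z) := by
  refine ⟨𝔤.sub_mem hy.1 hz.1, fun s hs i j hij => ?_⟩
  by_cases h : y i j = 0
  · refine hz.2 s hs i j ?_
    intro h0; apply hij; rw [Matrix.sub_apply, h, h0, sub_zero]
  · exact hy.2 s hs i j h

theorem G_comm {α : ι → ℝ} {y : Matrix ι ι ℂ} (h : G 𝔤 α y) {s : ι → ℝ} (hs : dg s ∈ 𝔤) :
    dg s * y - y * dg s = ((α ⬝ᵥ s : ℝ) : ℂ) • y := by
  ext i j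
  rw [Matrix.sub_apply, dg_mul, mul_dg, Matrix.smul_apply, smul_eq_mul]
  by_cases h0 : y i j = 0
  · rw [h0]; ring
  · rw [← h.2 s hs i j h0]; push_cast; ring

theorem G_diag (A : Adapted 𝔤 ρ) {α : ι → ℝ} {y : Matrix ι ι ℂ} (h : G 𝔤 α y) (hα : α ⬝ᵥ ρ = 0) :
    ∀ i j, i ≠ j → y i j = 0 := by
  refine A.diag y h.1 fun i j hij => ?_
  have := h.2 ρ A.mem i j hij
  rw [hα] at this
  linarith

theorem zero_of_orth {t : ι → ℝ} (ht : dg t ∈ 𝔤) (h : ∀ s : ι → ℝ, dg s ∈ 𝔤 → t ⬝ᵥ s = 0) : t = 0 :=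
  dotProduct_self_eq_zero.1 (h t ht)

theorem re_mem (hs : IsStar 𝔤) {y : Matrix ι ι ℂ} (hy : y ∈ 𝔤) (hd : ∀ i j, i ≠ j → y i j = 0) :
    dg (fun i => (y i i).re) ∈ 𝔤 := by
  have h1 : dg (fun i => (y i i).re) = (1 / 2 : ℂ) • (y + yᴴ) := by
    ext i j
    by_cases h : i = j
    · subst h
      simp only [dg, diagonal_apply_eq, Matrix.smul_apply, Matrix.add_apply, Matrix.conjTranspose_apply,
        Complex.star_def, Complex.add_conj, smul_eq_mul]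
      push_cast
      ring
    · simp [dg, h, hd i j h, hd j i (Ne.symm h)]
  rw [h1]
  exact 𝔤.smul_mem _ (𝔤.add_mem hy (hs y hy))

theorem im_mem (hs : IsStar 𝔤) {y : Matrix ι ι ℂ} (hy : y ∈ 𝔤) (hd : ∀ i j, i ≠ j → y i j = 0) :
    dg (fun i => (y i i).im) ∈ 𝔤 := by
  have h1 : dg (fun i => (y i i).im) = (1 / (2 * Complex.I) : ℂ) • (y - yᴴ) := by
    ext i j
    by_cases h : i = j
    · subst h
      simp only [dg, diagonal_apply_eq, Matrix.smul_apply, Matrix.sub_apply, Matrix.conjTranspose_apply,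
        Complex.star_def, Complex.sub_conj, smul_eq_mul]
      have := Complex.I_ne_zero
      field_simp
      push_cast
      ring
    · simp [dg, h, hd i j h, hd j i (Ne.symm h)]
  rw [h1]
  exact 𝔤.smul_mem _ (𝔤.sub_mem hy (hs y hy))

/-- a diagonal matrix of `𝔤` orthogonal to the torus is zero -/
theorem diag_zero (hs : IsStar 𝔤) {y : Matrix ι ι ℂ} (hy : y ∈ 𝔤) (hd : ∀ i j, i ≠ j → y i j = 0)
    (h : ∀ s : ι → ℝ, dg s ∈ 𝔤 → (y * dg s).trace = 0) : y = 0 := by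
  have htr : ∀ s : ι → ℝ, (y * dg s).trace = ∑ i, y i i * (s i : ℂ) := by
    intro s
    rw [Matrix.trace]
    exact Finset.sum_congr rfl fun i _ => by rw [Matrix.diag_apply, mul_dg]
  have h1 : (fun i => (y i i).re) = 0 := by
    refine zero_of_orth (re_mem hs hy hd) fun s hs' => ?_
    have h2 := congrArg Complex.re (h s hs')
    rw [htr, Complex.re_sum] at h2
    simpa [dotProduct] using h2
  have h1' : (fun i => (y i i).im) = 0 := by
    refine zero_of_orth (im_mem hs hy hd) fun s hs' => ?_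
    have h2 := congrArg Complex.im (h s hs')
    rw [htr, Complex.im_sum] at h2
    simpa [dotProduct] using h2
  ext i j
  by_cases hij : i = j
  · subst hij
    exact Complex.ext (congrFun h1 i) (congrFun h1' i)
  · rw [hd i j hij, Matrix.zero_apply]

/-- (R1) -/
theorem R1 (A : Adapted 𝔤 ρ) {α : ι → ℝ} (hα : dg α ∈ 𝔤) {e : Matrix ι ι ℂ} (he : G 𝔤 α e) :
    e * eᴴ - eᴴ * e = (Nm e : ℂ) • dg α := by
  have hw := G_br A.lie he (G_star A.star he)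
  rw [add_neg_cancel] at hw
  have hd := G_diag A hw (by simp)
  have hdiff : e * eᴴ - eᴴ * e - (Nm e : ℂ) • dg α = 0 := by
    refine diag_zero A.star (𝔤.sub_mem hw.1 (𝔤.smul_mem _ hα)) (fun i j hij => ?_) fun s hs => ?_
    · rw [Matrix.sub_apply, hd i j hij, Matrix.smul_apply, dg, diagonal_apply_ne _ hij]; simp
    · have h1 : (e * eᴴ - eᴴ * e) * dg s = e * eᴴ * dg s - eᴴ * e * dg s := Matrix.sub_mul _ _ _
      have h2 : (e * eᴴ * dg s).trace = (eᴴ * (dg s * e)).trace := by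
        rw [Matrix.mul_assoc, Matrix.trace_mul_comm, Matrix.mul_assoc]
      have h3 : (eᴴ * e * dg s).trace = (eᴴ * (e * dg s)).trace := by rw [Matrix.mul_assoc]
      have h4 : (eᴴ * e).trace = (Nm e : ℂ) := by rw [Matrix.trace_mul_comm, tr_Nm]
      rw [Matrix.sub_mul, Matrix.trace_sub, h1, Matrix.trace_sub, h2, h3, ← Matrix.trace_sub, ← Matrix.mul_sub,
        G_comm he hs, Matrix.mul_smul, Matrix.trace_smul, h4, Matrix.smul_mul, Matrix.trace_smul]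
      have h5 : (dg α * dg s).trace = ((α ⬝ᵥ s : ℝ) : ℂ) := by
        rw [Matrix.trace]
        simp only [Matrix.diag_apply, dg_mul, dotProduct]
        push_cast
        exact Finset.sum_congr rfl fun i _ => by simp [dg]
      rw [h5, smul_eq_mul, smul_eq_mul]
      ring
  exact sub_eq_zero.1 hdiff

/-- (UN), first part -/
theorem UN1 (A : Adapted 𝔤 ρ) {α β : ι → ℝ} (hα : dg α ∈ 𝔤) {e y : Matrix ι ι ℂ} (he : G 𝔤 α e)
    (hy : G 𝔤 β y) (h : eᴴ * y - y * eᴴ = 0) : Nm (e * y - y * e) = -(Nm e * (α ⬝ᵥ β) * Nm y) := by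
  have hJ : eᴴ * (e * y - y * e) - (e * y - y * e) * eᴴ =
      -((e * eᴴ - eᴴ * e) * y - y * (e * eᴴ - eᴴ * e)) +
        (e * (eᴴ * y - y * eᴴ) - (eᴴ * y - y * eᴴ) * e) := by noncomm_ring
  rw [h, Matrix.mul_zero, Matrix.zero_mul, sub_zero, add_zero, R1 A hα he, Matrix.smul_mul, Matrix.mul_smul,
    ← smul_sub, G_comm hy hα] at hJ
  have h1 := tr_adj e y (e * y - y * e)ᴴ
  rw [tr_Nm] at h1
  have h2 : (e * y - y * e)ᴴ * e - e * (e * y - y * e)ᴴ = (eᴴ * (e * y - y * e) - (e * y - y * e) * eᴴ)ᴴ := by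
    rw [Matrix.conjTranspose_sub (eᴴ * _), Matrix.conjTranspose_mul eᴴ, Matrix.conjTranspose_mul _ eᴴ,
      Matrix.conjTranspose_conjTranspose]
  rw [h2, hJ, Matrix.conjTranspose_neg, Matrix.conjTranspose_smul, Matrix.conjTranspose_smul, Matrix.mul_neg,
    Matrix.mul_smul, Matrix.mul_smul, Matrix.trace_neg, Matrix.trace_smul, Matrix.trace_smul, tr_Nm] at h1
  simp only [Complex.star_def, Complex.conj_ofReal, smul_eq_mul] at h1
  have h3 : (Nm (e * y - y * e) : ℂ) = ((-(Nm e * (β ⬝ᵥ α) * Nm y) : ℝ) : ℂ) := by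
    rw [h1]; push_cast; ring
  rw [dotProduct_comm]
  exact_mod_cast h3

/-- (UN), second part -/
theorem UN2 (A : Adapted 𝔤 ρ) {α β : ι → ℝ} (hα : dg α ∈ 𝔤) {e y : Matrix ι ι ℂ} (he : G 𝔤 α e)
    (hy : G 𝔤 β y) (h : e * y - y * e = 0) : Nm (eᴴ * y - y * eᴴ) = Nm e * (α ⬝ᵥ β) * Nm y := by
  have hJ : e * (eᴴ * y - y * eᴴ) - (eᴴ * y - y * eᴴ) * e =
      ((e * eᴴ - eᴴ * e) * y - y * (e * eᴴ - eᴴ * e)) +
        (eᴴ * (e * y - y * e) - (e * y - y * e) * eᴴ) := by noncomm_ring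
  rw [h, Matrix.mul_zero, Matrix.zero_mul, sub_zero, add_zero, R1 A hα he, Matrix.smul_mul, Matrix.mul_smul,
    ← smul_sub, G_comm hy hα] at hJ
  have h1 := tr_adj eᴴ y (eᴴ * y - y * eᴴ)ᴴ
  rw [tr_Nm] at h1
  have h2 : (eᴴ * y - y * eᴴ)ᴴ * eᴴ - eᴴ * (eᴴ * y - y * eᴴ)ᴴ = (e * (eᴴ * y - y * eᴴ) - (eᴴ * y - y * eᴴ) * e)ᴴ := by
    rw [Matrix.conjTranspose_sub (e * _), Matrix.conjTranspose_mul e, Matrix.conjTranspose_mul _ e]
  rw [h2, hJ, Matrix.conjTranspose_smul, Matrix.conjTranspose_smul,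
    Matrix.mul_smul, Matrix.mul_smul, Matrix.trace_smul, Matrix.trace_smul, tr_Nm] at h1
  simp only [Complex.star_def, Complex.conj_ofReal, smul_eq_mul] at h1
  have h3 : (Nm (eᴴ * y - y * eᴴ) : ℂ) = ((Nm e * (β ⬝ᵥ α) * Nm y : ℝ) : ℂ) := by
    rw [h1]; push_cast; ring
  rw [dotProduct_comm]
  exact_mod_cast h3

/-- (R2) -/
theorem R2 (A : Adapted 𝔤 ρ) {α : ι → ℝ} (hα : dg α ∈ 𝔤) (hα0 : α ≠ 0) {e y : Matrix ι ι ℂ}
    (he : G 𝔤 α e) (he0 : e ≠ 0) (hy : G 𝔤 α y) : ∃ c : ℂ, y = c • e := by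
  set c : ℂ := (y * eᴴ).trace / (Nm e : ℂ) with hc
  refine ⟨c, ?_⟩
  have hN : (Nm e : ℂ) ≠ 0 := by exact_mod_cast (Nm_pos he0).ne'
  have hy' := G_sub hy (G_smul he c)
  set y' := y - c • e with hy'def
  have horth : (y' * eᴴ).trace = 0 := by
    rw [hy'def, Matrix.sub_mul, Matrix.trace_sub, Matrix.smul_mul, Matrix.trace_smul, tr_Nm, smul_eq_mul, hc,
      div_mul_cancel₀ _ hN, sub_self]
  have hz := G_br A.lie (G_star A.star he) hy'
  rw [neg_add_cancel] at hz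
  have hz0 : eᴴ * y' - y' * eᴴ = 0 := by
    refine diag_zero A.star hz.1 (G_diag A hz (by simp)) fun s hs => ?_
    have h2 : (y' * eᴴ * dg s).trace = (eᴴ * (dg s * y')).trace := by
      rw [Matrix.mul_assoc, Matrix.trace_mul_comm, Matrix.mul_assoc]
    have h3 : (eᴴ * y' * dg s).trace = (eᴴ * (y' * dg s)).trace := by rw [Matrix.mul_assoc]
    rw [Matrix.sub_mul, Matrix.trace_sub, h2, h3, ← Matrix.trace_sub, ← Matrix.mul_sub, ← neg_sub, G_comm hy' hs,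
      Matrix.mul_neg, Matrix.mul_smul, Matrix.trace_neg, Matrix.trace_smul, Matrix.trace_mul_comm, horth,
      smul_zero, neg_zero]
  have hun := UN1 A hα he hy' hz0
  have h5 : 0 < α ⬝ᵥ α := lt_of_le_of_ne (dp_nonneg α)
    fun h => hα0 (dotProduct_self_eq_zero.1 h.symm)
  have h6 := Nm_nonneg (e * y' - y' * e)
  have h7 := Nm_nonneg y'
  have h8 : Nm y' = 0 := by
    by_contra hne
    have h9 : 0 < Nm y' := lt_of_le_of_ne h7 (Ne.symm hne)
    have h10 : 0 < Nm e * (α ⬝ᵥ α) * Nm y' := mul_pos (mul_pos (Nm_pos he0) h5) h9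
    linarith
  have h11 := Nm_eq_zero h8
  rw [hy'def, sub_eq_zero] at h11
  exact h11

/-- (R4) -/
theorem R4 (A : Adapted 𝔤 ρ) {α β : ι → ℝ} (hα : dg α ∈ 𝔤) (hβ : dg β ∈ 𝔤) (hα0 : α ≠ 0) (hβ0 : β ≠ 0)
    {e f h : Matrix ι ι ℂ} (he : G 𝔤 α e) (hf : G 𝔤 β f) (hh : G 𝔤 (α + β) h) (he0 : e ≠ 0) (hf0 : f ≠ 0)
    (hh0 : h ≠ 0) : e * f - f * e ≠ 0 := by
  intro hef
  have hw := G_br A.lie (G_star A.star he) hh
  rw [neg_add_cancel_left] at hw
  obtain ⟨c, hc⟩ := R2 A hβ hβ0 hf hf0 hw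
  have h1 := tr_adj eᴴ h fᴴ
  have h2 : fᴴ * eᴴ - eᴴ * fᴴ = (e * f - f * e)ᴴ := by
    rw [Matrix.conjTranspose_sub, Matrix.conjTranspose_mul, Matrix.conjTranspose_mul]
  rw [h2, hef, Matrix.conjTranspose_zero, Matrix.mul_zero, Matrix.trace_zero, hc, Matrix.smul_mul,
    Matrix.trace_smul, tr_Nm, smul_eq_mul] at h1
  have hN : (Nm f : ℂ) ≠ 0 := by exact_mod_cast (Nm_pos hf0).ne'
  have hc0 : c = 0 := (mul_eq_zero.1 h1).resolve_right hN
  rw [hc0, zero_smul] at hc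
  have hu1 := UN1 A hα he hh hc
  have hu2 := UN2 A hα he hf hef
  have p1 := Nm_nonneg (e * h - h * e)
  have p2 := Nm_nonneg (eᴴ * f - f * eᴴ)
  have p3 : 0 < Nm e * Nm h := mul_pos (Nm_pos he0) (Nm_pos hh0)
  have p4 : 0 < Nm e * Nm f := mul_pos (Nm_pos he0) (Nm_pos hf0)
  have q1 : α ⬝ᵥ (α + β) ≤ 0 := by
    by_contra hlt
    push Not at hlt
    have := mul_pos p3 hlt
    nlinarith
  have q2 : 0 ≤ α ⬝ᵥ β := by
    by_contra hlt
    push Not at hlt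
    have := mul_pos p4 (neg_pos.2 hlt)
    nlinarith
  rw [dotProduct_add] at q1
  have q3 : α ⬝ᵥ α = 0 := le_antisymm (by linarith) (dp_nonneg α)
  exact hα0 (dotProduct_self_eq_zero.1 q3)

/-! ### Parts -/

theorem poly_mem (hL : IsLie 𝔤) (hρ : dg ρ ∈ 𝔤) (P : ℂ[X]) {y : Matrix ι ι ℂ} (hy : y ∈ 𝔤) :
    (Matrix.of fun i j => P.eval ((ρ i : ℂ) - (ρ j : ℂ)) * y i j) ∈ 𝔤 := by
  have hpow : ∀ n : ℕ, (Matrix.of fun i j => ((ρ i : ℂ) - (ρ j : ℂ)) ^ n * y i j) ∈ 𝔤 := by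
    intro n
    induction n with
    | zero =>
      have : (Matrix.of fun i j => ((ρ i : ℂ) - (ρ j : ℂ)) ^ 0 * y i j) = y := by
        ext i j; simp
      rw [this]; exact hy
    | succ n ih =>
      have h1 := hL _ hρ _ ih
      have h2 : (Matrix.of fun i j => ((ρ i : ℂ) - (ρ j : ℂ)) ^ (n + 1) * y i j) =
          dg ρ * (Matrix.of fun i j => ((ρ i : ℂ) - (ρ j : ℂ)) ^ n * y i j) -
          (Matrix.of fun i j => ((ρ i : ℂ) - (ρ j : ℂ)) ^ n * y i j) * dg ρ := by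
        ext i j
        rw [Matrix.sub_apply, dg_mul, mul_dg, Matrix.of_apply, Matrix.of_apply]
        ring
      rw [h2]; exact h1
  induction P using Polynomial.induction_on' with
  | add p q hp hq =>
    have : (Matrix.of fun i j => (p + q).eval ((ρ i : ℂ) - (ρ j : ℂ)) * y i j) =
        (Matrix.of fun i j => p.eval ((ρ i : ℂ) - (ρ j : ℂ)) * y i j) +
        (Matrix.of fun i j => q.eval ((ρ i : ℂ) - (ρ j : ℂ)) * y i j) := by
      ext i j
      simp only [Matrix.of_apply, Matrix.add_apply, Polynomial.eval_add]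
      ring
    rw [this]; exact 𝔤.add_mem hp hq
  | monomial n a =>
    have : (Matrix.of fun i j => (monomial n a).eval ((ρ i : ℂ) - (ρ j : ℂ)) * y i j) =
        a • (Matrix.of fun i j => ((ρ i : ℂ) - (ρ j : ℂ)) ^ n * y i j) := by
      ext i j
      simp only [Matrix.of_apply, Matrix.smul_apply, Polynomial.eval_monomial, smul_eq_mul]
      ring
    rw [this]; exact 𝔤.smul_mem _ (hpow n)

/-- the part of `y` at the places where `ρ i - ρ j` satisfies `p` -/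
noncomputable def prt (ρ : ι → ℝ) (p : ℝ → Prop) [DecidablePred p] (y : Matrix ι ι ℂ) : Matrix ι ι ℂ :=
  Matrix.of fun i j => if p (ρ i - ρ j) then y i j else 0

/-- the differences of `ρ` -/
noncomputable def Df (ρ : ι → ℝ) : Finset ℝ := Finset.univ.image fun q : ι × ι => ρ q.1 - ρ q.2

theorem mem_Df (ρ : ι → ℝ) (i j : ι) : ρ i - ρ j ∈ Df ρ :=
  Finset.mem_image.2 ⟨(i, j), Finset.mem_univ _, rfl⟩

theorem prt_mem (hL : IsLie 𝔤) (hρ : dg ρ ∈ 𝔤) (p : ℝ → Prop) [DecidablePred p] {y : Matrix ι ι ℂ}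
    (hy : y ∈ 𝔤) : prt ρ p y ∈ 𝔤 := by
  set P : ℂ[X] := Lagrange.interpolate (Df ρ) (fun a : ℝ => (a : ℂ)) (fun a => if p a then 1 else 0) with hP
  have h1 := poly_mem hL hρ P hy
  have h2 : (Matrix.of fun i j => P.eval ((ρ i : ℂ) - (ρ j : ℂ)) * y i j) = prt ρ p y := by
    ext i j
    rw [Matrix.of_apply, prt, Matrix.of_apply]
    have h3 : P.eval (((ρ i - ρ j : ℝ) : ℂ)) = if p (ρ i - ρ j) then 1 else 0 := by
      rw [hP]
      exact Lagrange.eval_interpolate_at_node _ (fun a _ b _ hab => by exact_mod_cast hab) (mem_Df ρ i j)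
    rw [Complex.ofReal_sub] at h3
    rw [h3]
    split_ifs <;> simp
  rw [← h2]; exact h1

theorem sum_prt (ρ : ι → ℝ) (y : Matrix ι ι ℂ) : ∑ a ∈ Df ρ, prt ρ (fun b => b = a) y = y := by
  ext i j
  rw [Matrix.sum_apply]
  simp only [prt, Matrix.of_apply]
  rw [Finset.sum_ite_eq, if_pos (mem_Df ρ i j)]

/-- Riesz -/
theorem riesz (𝔤 : Submodule ℂ (Matrix ι ι ℂ)) (v : ι → ℝ) :
    ∃ α : ι → ℝ, dg α ∈ 𝔤 ∧ ∀ s : ι → ℝ, dg s ∈ 𝔤 → α ⬝ᵥ s = v ⬝ᵥ s := by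
  let T : Submodule ℝ (EuclideanSpace ℝ ι) :=
    { carrier := {s | dg (fun i => s i) ∈ 𝔤}
      add_mem' := by
        intro a b ha hb
        have : dg (fun i => (a + b) i) = dg (fun i => a i) + dg (fun i => b i) := dg_add _ _
        change dg (fun i => (a + b) i) ∈ 𝔤
        rw [this]; exact 𝔤.add_mem ha hb
      zero_mem' := by
        have : dg (fun i => (0 : EuclideanSpace ℝ ι) i) = (0 : Matrix ι ι ℂ) := by
          ext i j
          by_cases h : i = j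
          · subst h; simp [dg]
          · simp [dg, h]
        change dg (fun i => (0 : EuclideanSpace ℝ ι) i) ∈ 𝔤
        rw [this]; exact 𝔤.zero_mem
      smul_mem' := by
        intro c a ha
        have : dg (fun i => (c • a) i) = (c : ℂ) • dg (fun i => a i) := dg_smul _ _
        change dg (fun i => (c • a) i) ∈ 𝔤
        rw [this]; exact 𝔤.smul_mem _ ha }
  set w : EuclideanSpace ℝ ι := WithLp.toLp 2 v with hw
  refine ⟨fun i => (T.starProjection w) i, T.starProjection_apply_mem w, fun s hs => ?_⟩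
  have h1 := T.starProjection_inner_eq_zero w (WithLp.toLp 2 s) hs
  rw [EuclideanSpace.inner_eq_star_dotProduct] at h1
  simp only [star_trivial] at h1
  have h2 : s ⬝ᵥ (v - fun i => (T.starProjection w) i) = 0 := by
    exact h1
  rw [dotProduct_sub, sub_eq_zero] at h2
  rw [dotProduct_comm, ← h2, dotProduct_comm]

/-! ### Positive roots and simple roots -/

theorem exists_entry {y : Matrix ι ι ℂ} (h : y ≠ 0) : ∃ i j, y i j ≠ 0 := by
  by_contra hne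
  push Not at hne
  exact h (Matrix.ext hne)

/-- positive roots -/
def Pr (𝔤 : Submodule ℂ (Matrix ι ι ℂ)) (ρ α : ι → ℝ) : Prop :=
  dg α ∈ 𝔤 ∧ 0 < α ⬝ᵥ ρ ∧ ∃ y, y ≠ 0 ∧ G 𝔤 α y

/-- simple roots -/
def Sp (𝔤 : Submodule ℂ (Matrix ι ι ℂ)) (ρ α : ι → ℝ) : Prop :=
  Pr 𝔤 ρ α ∧ ∀ β γ, Pr 𝔤 ρ β → Pr 𝔤 ρ γ → α ≠ β + γ

theorem root_val (A : Adapted 𝔤 ρ) {α : ι → ℝ} {y : Matrix ι ι ℂ} (hy : y ≠ 0) (hG : G 𝔤 α y) :
    ∃ i j, ρ i - ρ j = α ⬝ᵥ ρ ∧ ∀ s : ι → ℝ, dg s ∈ 𝔤 → s i - s j = α ⬝ᵥ s := by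
  obtain ⟨i, j, hij⟩ := exists_entry hy
  exact ⟨i, j, hG.2 ρ A.mem i j hij, fun s hs => hG.2 s hs i j hij⟩

theorem eq_of_dot {α β : ι → ℝ} (hα : dg α ∈ 𝔤) (hβ : dg β ∈ 𝔤)
    (h : ∀ s : ι → ℝ, dg s ∈ 𝔤 → α ⬝ᵥ s = β ⬝ᵥ s) : α = β := by
  have h1 : α - β = 0 := by
    refine zero_of_orth (𝔤 := 𝔤) (by rw [dg_sub]; exact 𝔤.sub_mem hα hβ) fun s hs => ?_
    rw [sub_dotProduct, h s hs, sub_self]
  exact sub_eq_zero.1 h1

theorem root_inj (A : Adapted 𝔤 ρ) {α β : ι → ℝ} {y z : Matrix ι ι ℂ} (hα : dg α ∈ 𝔤) (hβ : dg β ∈ 𝔤)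
    (hy : y ≠ 0) (hG : G 𝔤 α y) (hz : z ≠ 0) (hG' : G 𝔤 β z) (h : α ⬝ᵥ ρ = β ⬝ᵥ ρ) : α = β := by
  obtain ⟨i, j, h1, h2⟩ := root_val A hy hG
  obtain ⟨k, l, h3, h4⟩ := root_val A hz hG'
  refine eq_of_dot hα hβ fun s hs => ?_
  rw [← h2 s hs, ← h4 s hs]
  exact A.gen s hs i j k l (by rw [h1, h3, h])

theorem Pr_finite (A : Adapted 𝔤 ρ) : {α | Pr 𝔤 ρ α}.Finite := by
  refine Set.Finite.of_injOn (f := fun α => α ⬝ᵥ ρ) (t := (Df ρ : Set ℝ)) ?_ ?_ (Finset.finite_toSet _)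
  · intro α hα
    obtain ⟨y, hy, hG⟩ := hα.2.2
    obtain ⟨i, j, h1, _⟩ := root_val A hy hG
    simp only
    rw [← h1]
    exact Finset.mem_coe.2 (mem_Df ρ i j)
  · intro α hα β hβ h
    obtain ⟨y, hy, hG⟩ := hα.2.2
    obtain ⟨z, hz, hG'⟩ := hβ.2.2
    exact root_inj A hα.1 hβ.1 hy hG hz hG' h

theorem Pr_ne {α : ι → ℝ} (h : Pr 𝔤 ρ α) : α ≠ 0 := by
  intro h0
  have := h.2.1
  rw [h0, zero_dotProduct] at this
  exact lt_irrefl _ this

theorem simple_comm (A : Adapted 𝔤 ρ) {α β : ι → ℝ} (hα : Sp 𝔤 ρ α) (hβ : Sp 𝔤 ρ β) (hne : α ≠ β)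
    {e f : Matrix ι ι ℂ} (he : G 𝔤 α e) (hf : G 𝔤 β f) : eᴴ * f - f * eᴴ = 0 := by
  by_contra h0
  have hw := G_br A.lie (G_star A.star he) hf
  have hmem : dg (-α + β) ∈ 𝔤 := by
    rw [dg_add, dg_neg]; exact 𝔤.add_mem (𝔤.neg_mem hα.1.1) hβ.1.1
  rcases lt_trichotomy ((-α + β) ⬝ᵥ ρ) 0 with h | h | h
  · refine hα.2 β (α - β) hβ.1 ⟨?_, ?_, (eᴴ * f - f * eᴴ)ᴴ, ?_, ?_⟩ (by abel)
    · rw [dg_sub]; exact 𝔤.sub_mem hα.1.1 hβ.1.1
    · have : (α - β) ⬝ᵥ ρ = -((-α + β) ⬝ᵥ ρ) := by rw [← neg_dotProduct]; congr 1; abel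
      rw [this]; linarith
    · intro h1; apply h0
      rw [← Matrix.conjTranspose_conjTranspose (eᴴ * f - f * eᴴ), h1, Matrix.conjTranspose_zero]
    · have h1 := G_star A.star hw
      have : α - β = -(-α + β) := by abel
      rw [this]; exact h1
  · have hd := G_diag A hw h
    obtain ⟨i, j, hij⟩ := exists_entry h0
    have hij' : i = j := by
      by_contra hc; exact hij (hd i j hc)
    subst hij'
    have h1 : -α + β = 0 := by
      refine zero_of_orth hmem fun s hs => ?_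
      rw [← hw.2 s hs i i hij, sub_self]
    apply hne
    rw [neg_add_eq_sub, sub_eq_zero] at h1
    exact h1.symm
  · exact hβ.2 α (-α + β) hα.1 ⟨hmem, h, _, h0, hw⟩ (by abel)

theorem simple_obtuse (A : Adapted 𝔤 ρ) {α β : ι → ℝ} (hα : Sp 𝔤 ρ α) (hβ : Sp 𝔤 ρ β) (hne : α ≠ β) :
    α ⬝ᵥ β ≤ 0 := by
  obtain ⟨e, he0, he⟩ := hα.1.2.2
  obtain ⟨f, hf0, hf⟩ := hβ.1.2.2
  have h1 := UN1 A hα.1.1 he hf (simple_comm A hα hβ hne he hf)
  have h2 := Nm_nonneg (e * f - f * e)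
  have h3 : 0 < Nm e * Nm f := mul_pos (Nm_pos he0) (Nm_pos hf0)
  by_contra hlt
  push Not at hlt
  have := mul_pos h3 hlt
  nlinarith

theorem obtuse_indep {r : ℕ} (α : Fin r → ι → ℝ) (ρ : ι → ℝ) (hpos : ∀ a, 0 < α a ⬝ᵥ ρ)
    (hob : ∀ a b, a ≠ b → α a ⬝ᵥ α b ≤ 0) : LinearIndependent ℝ α := by
  rw [Fintype.linearIndependent_iff]
  intro c hc
  have hv : ∑ a, max (c a) 0 • α a = ∑ a, max (-c a) 0 • α a := by
    rw [← sub_eq_zero, ← Finset.sum_sub_distrib, ← hc]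
    refine Finset.sum_congr rfl fun a _ => ?_
    rw [← sub_smul]
    congr 1
    rcases le_total (c a) 0 with h | h
    · rw [max_eq_right h, max_eq_left (by linarith)]; ring
    · rw [max_eq_left h, max_eq_right (by linarith)]; ring
  have h0 : (∑ a, max (c a) 0 • α a) ⬝ᵥ (∑ a, max (c a) 0 • α a) ≤ 0 := by
    conv_lhs => rw [hv]
    conv_lhs => arg 2; rw [← hv]
    rw [sum_dotProduct]
    refine Finset.sum_nonpos fun a _ => ?_
    rw [dotProduct_sum]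
    refine Finset.sum_nonpos fun b _ => ?_
    rw [smul_dotProduct, dotProduct_smul, smul_eq_mul, smul_eq_mul]
    by_cases hab : a = b
    · subst hab
      rcases le_total (c a) 0 with h | h
      · rw [max_eq_right h]; simp
      · rw [max_eq_right (by linarith : -c a ≤ 0)]; simp
    · have := hob a b hab
      have h1 : 0 ≤ max (-c a) 0 := le_max_right _ _
      have h2 : 0 ≤ max (c b) 0 := le_max_right _ _
      have h3 : max (-c a) 0 * (max (c b) 0 * α a ⬝ᵥ α b) = (max (-c a) 0 * max (c b) 0) * (α a ⬝ᵥ α b) := by ring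
      rw [h3]
      exact mul_nonpos_of_nonneg_of_nonpos (mul_nonneg h1 h2) this
  have hz : ∑ a, max (c a) 0 • α a = 0 :=
    dotProduct_self_eq_zero.1 (le_antisymm h0 (dp_nonneg _))
  have hz' : ∑ a, max (-c a) 0 • α a = 0 := by rw [← hv]; exact hz
  have key : ∀ d : Fin r → ℝ, (∀ a, 0 ≤ d a) → ∑ a, d a • α a = 0 → ∀ a, d a = 0 := by
    intro d hd hsum a
    have h1 := congrArg (fun v => v ⬝ᵥ ρ) hsum
    simp only [sum_dotProduct, smul_dotProduct, smul_eq_mul, zero_dotProduct] at h1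
    have h2 := (Finset.sum_eq_zero_iff_of_nonneg (fun a _ => mul_nonneg (hd a) (hpos a).le)).1 h1 a
      (Finset.mem_univ a)
    exact (mul_eq_zero.1 h2).resolve_right (hpos a).ne'
  intro a
  have h1 := key _ (fun a => le_max_right _ _) hz a
  have h2 := key _ (fun a => le_max_right _ _) hz' a
  have h3 : c a ≤ 0 := by rw [← h1]; exact le_max_left _ _
  have h4 : -c a ≤ 0 := by rw [← h2]; exact le_max_left _ _
  linarith

theorem gen_root (A : Adapted 𝔤 ρ) (𝔫 : Submodule ℂ (Matrix ι ι ℂ))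
    (hbr : ∀ x ∈ 𝔫, ∀ y ∈ 𝔫, x * y - y * x ∈ 𝔫) (hS : ∀ α, Sp 𝔤 ρ α → ∀ y, G 𝔤 α y → y ∈ 𝔫) :
    ∀ n : ℕ, ∀ γ, Pr 𝔤 ρ γ → ((Df ρ).filter fun a => a < γ ⬝ᵥ ρ).card ≤ n → ∀ y, G 𝔤 γ y → y ∈ 𝔫 := by
  intro n
  induction n with
  | zero =>
    intro γ hγ hcard y hy
    by_cases hs : Sp 𝔤 ρ γ
    · exact hS γ hs y hy
    · exfalso
      have : ∃ β δ, Pr 𝔤 ρ β ∧ Pr 𝔤 ρ δ ∧ γ = β + δ := by
        by_contra hc
        push Not at hc
        exact hs ⟨hγ, hc⟩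
      obtain ⟨β, δ, hβ, hδ, hsum⟩ := this
      obtain ⟨z, hz, hGz⟩ := hβ.2.2
      obtain ⟨i, j, h1, _⟩ := root_val A hz hGz
      have h2 : ρ i - ρ j ∈ (Df ρ).filter fun a => a < γ ⬝ᵥ ρ := by
        rw [Finset.mem_filter]
        refine ⟨mem_Df ρ i j, ?_⟩
        rw [h1, hsum, add_dotProduct]
        linarith [hδ.2.1]
      have h3 : ((Df ρ).filter fun a => a < γ ⬝ᵥ ρ) = ∅ := Finset.card_eq_zero.1 (Nat.le_zero.1 hcard)
      rw [h3] at h2
      simp at h2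
  | succ n ih =>
    intro γ hγ hcard y hy
    by_cases hs : Sp 𝔤 ρ γ
    · exact hS γ hs y hy
    · have : ∃ β δ, Pr 𝔤 ρ β ∧ Pr 𝔤 ρ δ ∧ γ = β + δ := by
        by_contra hc
        push Not at hc
        exact hs ⟨hγ, hc⟩
      obtain ⟨β, δ, hβ, hδ, hsum⟩ := this
      have hlt : ∀ β, Pr 𝔤 ρ β → β ⬝ᵥ ρ < γ ⬝ᵥ ρ → ((Df ρ).filter fun a => a < β ⬝ᵥ ρ).card ≤ n := by
        intro β hβ hlt
        obtain ⟨z, hz, hGz⟩ := hβ.2.2
        obtain ⟨i, j, h1, _⟩ := root_val A hz hGz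
        have h2 : ((Df ρ).filter fun a => a < β ⬝ᵥ ρ) ⊂ ((Df ρ).filter fun a => a < γ ⬝ᵥ ρ) := by
          rw [Finset.ssubset_iff_of_subset]
          · refine ⟨ρ i - ρ j, ?_, ?_⟩
            · rw [Finset.mem_filter]; exact ⟨mem_Df ρ i j, by rw [h1]; exact hlt⟩
            · rw [Finset.mem_filter, h1]; intro h; exact lt_irrefl _ h.2
          · intro a ha
            rw [Finset.mem_filter] at ha ⊢
            exact ⟨ha.1, ha.2.trans hlt⟩
        have := Finset.card_lt_card h2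
        omega
      have hb := ih β hβ (hlt β hβ (by rw [hsum, add_dotProduct]; linarith [hδ.2.1]))
      have hd := ih δ hδ (hlt δ hδ (by rw [hsum, add_dotProduct]; linarith [hβ.2.1]))
      obtain ⟨e, he0, he⟩ := hβ.2.2
      obtain ⟨f, hf0, hf⟩ := hδ.2.2
      by_cases hy0 : y = 0
      · rw [hy0]; exact 𝔫.zero_mem
      · have h1 : e * f - f * e ≠ 0 :=
          R4 A hβ.1 hδ.1 (Pr_ne hβ) (Pr_ne hδ) he hf (hsum ▸ hy) he0 hf0 hy0
        have h2 := G_br A.lie he hf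
        rw [← hsum] at h2
        obtain ⟨c, hc⟩ := R2 A hγ.1 (Pr_ne hγ) h2 h1 hy
        rw [hc]
        exact 𝔫.smul_mem _ (hbr e (hb e he) f (hd f hf))

/-- a part is in a root space -/
theorem prt_G (A : Adapted 𝔤 ρ) {y : Matrix ι ι ℂ} (hy : y ∈ 𝔤) {a : ℝ} (ha : a ∈ Df ρ) :
    ∃ α, dg α ∈ 𝔤 ∧ α ⬝ᵥ ρ = a ∧ G 𝔤 α (prt ρ (fun b => b = a) y) := by
  obtain ⟨q, _, hq⟩ := Finset.mem_image.1 ha
  obtain ⟨α, hα, hα2⟩ := riesz 𝔤 (Pi.single q.1 1 - Pi.single q.2 1)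
  have hval : ∀ s : ι → ℝ, dg s ∈ 𝔤 → α ⬝ᵥ s = s q.1 - s q.2 := by
    intro s hs
    rw [hα2 s hs, sub_dotProduct, single_dotProduct, single_dotProduct, one_mul, one_mul]
  refine ⟨α, hα, ?_, prt_mem A.lie A.mem _ hy, fun s hs i j hij => ?_⟩
  · rw [hval ρ A.mem]; exact hq
  · have h1 : ρ i - ρ j = a := by
      by_contra hc
      apply hij
      rw [prt, Matrix.of_apply, if_neg hc]
    rw [hval s hs]
    exact A.gen s hs i j q.1 q.2 (by rw [h1]; exact hq.symm)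

theorem Nm_smul (c : ℂ) (y : Matrix ι ι ℂ) : Nm (c • y) = ‖c‖ ^ 2 * Nm y := by
  unfold Nm
  rw [Finset.mul_sum]
  refine Finset.sum_congr rfl fun i _ => ?_
  rw [Finset.mul_sum]
  refine Finset.sum_congr rfl fun j _ => ?_
  rw [Matrix.smul_apply, smul_eq_mul, norm_mul, mul_pow]

theorem normalise {α : ι → ℝ} {y : Matrix ι ι ℂ} (hy : y ≠ 0) (hG : G 𝔤 α y) :
    ∃ e, G 𝔤 α e ∧ Nm e = 1 := by
  have h := Nm_pos hy
  refine ⟨((1 / Real.sqrt (Nm y) : ℝ) : ℂ) • y, G_smul hG _, ?_⟩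
  rw [Nm_smul, Complex.norm_real, Real.norm_eq_abs, sq_abs, div_pow, one_pow, Real.sq_sqrt h.le]
  field_simp

/-- **job ROOT** -/
theorem main_ROOT : S_ROOT := by
  intro ι _ _ 𝔤 ρ A
  classical
  have hfin : {α | Sp 𝔤 ρ α}.Finite := (Pr_finite A).subset fun α h => h.1
  set S := hfin.toFinset with hS
  have hSm : ∀ α, α ∈ S ↔ Sp 𝔤 ρ α := fun α => by rw [hS, Set.Finite.mem_toFinset]; rfl
  set eq := S.equivFin.symm with heq
  set α : Fin S.card → ι → ℝ := fun a => (eq a).1 with hαdef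
  have hαS : ∀ a, Sp 𝔤 ρ (α a) := fun a => (hSm _).1 (eq a).2
  have hαinj : ∀ a b, a ≠ b → α a ≠ α b := by
    intro a b hab h
    exact hab (eq.injective (Subtype.ext h))
  have hex : ∀ a, ∃ e, G 𝔤 (α a) e ∧ Nm e = 1 := by
    intro a
    obtain ⟨y, hy, hG⟩ := (hαS a).1.2.2
    exact normalise hy hG
  choose e heG heN using hex
  have he0 : ∀ a, e a ≠ 0 := by
    intro a h
    have := heN a
    rw [h] at this
    simp [Nm] at this
  refine ⟨S.card, e, α, ?_⟩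
  refine
    { mem := fun a => (heG a).1
      pos := fun a => (hαS a).1.2.1
      wt := fun a s hs i j hij => (heG a).2 s hs i j hij
      self := fun a => ?_
      ne := fun a b hab => ?_
      indep := ?_
      gen := ?_
      one := fun a x hx h => R2 A (hαS a).1.1 (Pr_ne (hαS a).1) (heG a) (he0 a) ⟨hx, h⟩ }
  · rw [R1 A (hαS a).1.1 (heG a), heN a]; simp
  · have h1 := simple_comm A (hαS a) (hαS b) (hαinj a b hab) (heG a) (heG b)
    have h2 := congrArg Matrix.conjTranspose h1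
    rw [Matrix.conjTranspose_sub, Matrix.conjTranspose_mul, Matrix.conjTranspose_mul,
      Matrix.conjTranspose_conjTranspose, Matrix.conjTranspose_zero] at h2
    rw [← neg_sub, h2, neg_zero]
  · exact obtuse_indep α ρ (fun a => (hαS a).1.2.1) fun a b hab =>
      simple_obtuse A (hαS a) (hαS b) (hαinj a b hab)
  · intro 𝔫 hn hbr x hx hpos
    have hroot : ∀ γ, Pr 𝔤 ρ γ → ∀ y, G 𝔤 γ y → y ∈ 𝔫 := by
      intro γ hγ y hy
      refine gen_root A 𝔫 hbr ?_ _ γ hγ le_rfl y hy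
      intro β hβ z hz
      obtain ⟨a, ha⟩ : ∃ a, α a = β := by
        refine ⟨eq.symm ⟨β, (hSm β).2 hβ⟩, ?_⟩
        rw [hαdef]
        simp
      subst ha
      obtain ⟨c, hc⟩ := R2 A (hαS a).1.1 (Pr_ne (hαS a).1) (heG a) (he0 a) hz
      rw [hc]
      exact 𝔫.smul_mem _ (hn a)
    rw [← sum_prt ρ x]
    refine 𝔫.sum_mem fun a ha => ?_
    by_cases h0 : prt ρ (fun b => b = a) x = 0
    · rw [h0]; exact 𝔫.zero_mem
    · obtain ⟨β, hβ, hβρ, hG⟩ := prt_G A hx ha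
      refine hroot β ⟨hβ, ?_, _, h0, hG⟩ _ hG
      obtain ⟨i, j, hij⟩ := exists_entry h0
      have h1 : ρ i - ρ j = a := by
        by_contra hc
        apply hij
        rw [prt, Matrix.of_apply, if_neg hc]
      have h2 : x i j ≠ 0 := by
        intro hc
        apply hij
        rw [prt, Matrix.of_apply, hc, ite_self]
      have h3 := hpos i j h2
      rw [hβρ, ← h1]
      linarith

end Pool.Agent.Q239.ZG
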