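import Pool.Agent.Q271.ZG.Basic
import Pool.Agent.Q239.ZG.ROOT

set_option autoImplicit false
set_option linter.unusedSectionVars false

/-! Project ZG, job FLAG. -/

namespace Pool.Agent.Q239.ZG

open Matrix Pool.Agent.Q60.ED Pool.Agent.Q271.ZG

variable {ι : Type} [Fintype ι] [DecidableEq ι]

theorem comm_place {e : Matrix ι ι ℂ} {s : ι → ℝ} {a : ℝ} (h : ∀ i j, e i j ≠ 0 → s i - s j = a) :
    e * dg s - dg s * e = (-(a : ℂ)) • e := by
  ext i j
  rw [Matrix.sub_apply, dg_mul, mul_dg, Matrix.smul_apply, smul_eq_mul]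
  by_cases h0 : e i j = 0
  · rw [h0]; ring
  · rw [← h i j h0]; push_cast; ring

theorem comm_place_star {e : Matrix ι ι ℂ} {s : ι → ℝ} {a : ℝ} (h : ∀ i j, e i j ≠ 0 → s i - s j = a) :
    eᴴ * dg s - dg s * eᴴ = (a : ℂ) • eᴴ := by
  have h1 : ∀ i j, eᴴ i j ≠ 0 → s i - s j = -a := by
    intro i j hij
    have h2 : e j i ≠ 0 := by
      intro h0; apply hij; rw [Matrix.conjTranspose_apply, h0, star_zero]
    rw [← h j i h2]; ring
  rw [comm_place h1]; push_cast; rw [neg_neg]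

/-- (1) -/
theorem FL1 {𝔤 : Submodule ℂ (Matrix ι ι ℂ)} {ρ ρ' : ι → ℝ} (hs : IsStar 𝔤)
    (hpos : ∀ z ∈ 𝔤, zᴴ = -z →
      0 ≤ ((z * dg ρ' - dg ρ' * z) * (z * dg ρ - dg ρ * z)).trace.re)
    {e : Matrix ι ι ℂ} (he : e ∈ 𝔤) (he0 : e ≠ 0) {a a' : ℝ} (ha : 0 < a)
    (h : ∀ i j, e i j ≠ 0 → ρ i - ρ j = a) (h' : ∀ i j, e i j ≠ 0 → ρ' i - ρ' j = a') : 0 ≤ a' := by
  have hz : (e - eᴴ)ᴴ = -(e - eᴴ) := by
    rw [Matrix.conjTranspose_sub, Matrix.conjTranspose_conjTranspose]; abel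
  have h1 := hpos (e - eᴴ) (𝔤.sub_mem he (hs e he)) hz
  have h2 : ∀ (s : ι → ℝ) (b : ℝ), (∀ i j, e i j ≠ 0 → s i - s j = b) →
      (e - eᴴ) * dg s - dg s * (e - eᴴ) = (-(b : ℂ)) • (e + eᴴ) := by
    intro s b hb
    have : (e - eᴴ) * dg s - dg s * (e - eᴴ) = (e * dg s - dg s * e) - (eᴴ * dg s - dg s * eᴴ) := by
      noncomm_ring
    rw [this, comm_place hb, comm_place_star hb, smul_add, neg_smul, neg_smul]
    abel
  rw [h2 ρ' a' h', h2 ρ a h, Matrix.smul_mul, Matrix.mul_smul, smul_smul, Matrix.trace_smul] at h1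
  have hw : (e + eᴴ)ᴴ = e + eᴴ := by
    rw [Matrix.conjTranspose_add, Matrix.conjTranspose_conjTranspose]; abel
  have h3 : ((e + eᴴ) * (e + eᴴ)).trace = (Nm (e + eᴴ) : ℂ) := by
    conv_lhs => rw [← hw]
    rw [hw]
    conv_lhs => arg 1; arg 2; rw [← hw]
    exact tr_Nm _
  rw [h3, smul_eq_mul, neg_mul_neg, ← Complex.ofReal_mul, ← Complex.ofReal_mul, Complex.ofReal_re] at h1
  have h4 : e + eᴴ ≠ 0 := by
    intro h0
    obtain ⟨i, j, hij⟩ := exists_entry he0
    have h5 := h i j hij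
    have h6 : e i j + star (e j i) = 0 := by
      have := congrFun (congrFun h0 i) j
      simpa using this
    have h7 : e j i ≠ 0 := by
      intro h8
      rw [h8, star_zero, add_zero] at h6
      exact hij h6
    have h9 := h j i h7
    linarith
  have h5 := Nm_pos h4
  by_contra hlt
  push Not at hlt
  have h6 : a' * a < 0 := by nlinarith
  nlinarith

/-- normal and strictly positive elements vanish -/
theorem normal_zero {ρ : ι → ℝ} {e : Matrix ι ι ℂ} {a : ℝ} (ha : 0 < a)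
    (h : ∀ i j, e i j ≠ 0 → ρ i - ρ j = a) (hn : e * eᴴ - eᴴ * e = 0) : e = 0 := by
  have h1 : (e * eᴴ * dg ρ).trace = (eᴴ * (dg ρ * e)).trace := by
    rw [Matrix.mul_assoc, Matrix.trace_mul_comm, Matrix.mul_assoc]
  have h2 : (eᴴ * e * dg ρ).trace = (eᴴ * (e * dg ρ)).trace := by rw [Matrix.mul_assoc]
  have h3 : ((e * eᴴ - eᴴ * e) * dg ρ).trace = (a : ℂ) * (Nm e : ℂ) := by
    have h4 : dg ρ * e - e * dg ρ = (a : ℂ) • e := by
      rw [← neg_sub, comm_place h, neg_smul, neg_neg]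
    rw [Matrix.sub_mul, Matrix.trace_sub, h1, h2, ← Matrix.trace_sub, ← Matrix.mul_sub, h4, Matrix.mul_smul,
      Matrix.trace_smul, Matrix.trace_mul_comm, tr_Nm, smul_eq_mul]
  rw [hn, Matrix.zero_mul, Matrix.trace_zero] at h3
  have h4 : (a : ℂ) ≠ 0 := by exact_mod_cast ha.ne'
  have h5 := (mul_eq_zero.1 h3.symm).resolve_left h4
  exact Nm_eq_zero (by exact_mod_cast h5)

/-- **job FLAG** -/
theorem main_FLAG (hD : S_DOM) (hP : S_PRJ) (hW : S_WDG) : S_FLAG := by
  intro ι _ _ 𝔤 ρ A v hv hv1 hv2 hTw hcomm hpos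
  classical
  have hv' : vᴴ * v = 1 := mul_eq_one_comm.1 hv
  have hdet : v.det ≠ 0 := by
    intro h0
    have := congrArg Matrix.det hv
    rw [Matrix.det_mul, h0, zero_mul, Matrix.det_one] at this
    exact zero_ne_one this
  have hX : v * dg ρ * vᴴ ∈ 𝔤 := hv1 _ A.mem
  have hXd : ∀ i j, i ≠ j → (v * dg ρ * vᴴ) i j = 0 := by
    refine A.diag _ hX fun i j hij => ?_
    have h1 := congrFun (congrFun hcomm i) j
    rw [mul_dg, dg_mul] at h1
    have h2 : ((ρ j : ℂ) - (ρ i : ℂ)) * (v * dg ρ * vᴴ) i j = 0 := by linear_combination h1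
    have h3 := (mul_eq_zero.1 h2).resolve_right hij
    have h4 : (ρ j : ℂ) = (ρ i : ℂ) := sub_eq_zero.1 h3
    exact (by exact_mod_cast h4.symm)
  have hdgH : (dg ρ)ᴴ = dg ρ := by
    ext i j
    rw [Matrix.conjTranspose_apply]
    by_cases h : i = j
    · subst h; simp [dg]
    · simp [dg, h, Ne.symm h]
  have hXh : (v * dg ρ * vᴴ)ᴴ = v * dg ρ * vᴴ := by
    rw [Matrix.conjTranspose_mul, Matrix.conjTranspose_mul, Matrix.conjTranspose_conjTranspose, hdgH,
      Matrix.mul_assoc]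
  obtain ⟨ρ', hρ'⟩ : ∃ ρ' : ι → ℝ, v * dg ρ * vᴴ = dg ρ' := by
    refine ⟨fun i => ((v * dg ρ * vᴴ) i i).re, ?_⟩
    ext i j
    by_cases h : i = j
    · subst h
      have h1 := congrFun (congrFun hXh i) i
      rw [Matrix.conjTranspose_apply] at h1
      simp only [dg, diagonal_apply_eq]
      exact (Complex.conj_eq_iff_re.1 h1).symm
    · rw [hXd i j h]; simp [dg, h]
  rw [hρ'] at hX hpos
  -- the entries of the conjugate
  have hconj : ∀ e ∈ 𝔤, ∀ a' : ℝ, (∀ i j, e i j ≠ 0 → ρ' i - ρ' j = a') →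
      ∀ i j, (vᴴ * e * v) i j ≠ 0 → ρ i - ρ j = a' := by
    intro e _ a' h i j hij
    have h1 : dg ρ * (vᴴ * e * v) - (vᴴ * e * v) * dg ρ = vᴴ * (dg ρ' * e - e * dg ρ') * v := by
      rw [← hρ']
      have e1 : vᴴ * (v * dg ρ * vᴴ * e - e * (v * dg ρ * vᴴ)) * v =
          (vᴴ * v) * dg ρ * (vᴴ * e * v) - (vᴴ * e * v) * dg ρ * (vᴴ * v) := by noncomm_ring
      rw [e1, hv', Matrix.one_mul, Matrix.mul_one]
    have h2 : dg ρ' * e - e * dg ρ' = (a' : ℂ) • e := by
      rw [← neg_sub, comm_place h, neg_smul, neg_neg]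
    rw [h2, Matrix.mul_smul, Matrix.smul_mul] at h1
    have h3 := congrFun (congrFun h1 i) j
    rw [Matrix.sub_apply, dg_mul, mul_dg, Matrix.smul_apply, smul_eq_mul] at h3
    have h4 : ((ρ i : ℂ) - (ρ j : ℂ) - (a' : ℂ)) * (vᴴ * e * v) i j = 0 := by linear_combination h3
    have h5 := (mul_eq_zero.1 h4).resolve_right hij
    have h6 : (ρ i : ℂ) - (ρ j : ℂ) = (a' : ℂ) := sub_eq_zero.1 h5
    exact_mod_cast h6
  -- the zero pattern of `v` below the diagonal blocks
  have hlow : ∀ t : ℝ, ∀ i j, t ≤ ρ j → ρ i < t → v i j = 0 := by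
    intro t
    set J : Finset ι := Finset.univ.filter fun l => t ≤ ρ l with hJ
    set k := J.card with hk
    set c : Fin k → ι := fun s => (J.equivFin.symm s).1 with hc
    have hcinj : Function.Injective c := fun s s' h => J.equivFin.symm.injective (Subtype.ext h)
    have hrange : ∀ i, i ∈ Set.range c ↔ t ≤ ρ i := by
      intro i
      constructor
      · rintro ⟨s, rfl⟩
        exact (Finset.mem_filter.1 (J.equivFin.symm s).2).2
      · intro hi
        have hiJ : i ∈ J := by rw [hJ, Finset.mem_filter]; exact ⟨Finset.mem_univ _, hi⟩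
        refine ⟨J.equivFin ⟨i, hiJ⟩, ?_⟩
        rw [hc]; simp
    have hcs : ∀ s, t ≤ ρ (c s) := fun s => (hrange _).1 ⟨s, rfl⟩
    have hkle : k ≤ Fintype.card ι := by
      rw [hk]; exact Finset.card_le_univ J
    obtain ⟨_, _, w3, _, w5⟩ := hW ι k c hcinj
    set ω := wdg c with hω
    -- submodules
    let 𝔫 : Submodule ℂ (Matrix ι ι ℂ) :=
      { carrier := {x | x ∈ 𝔤 ∧ ∀ i j, x i j ≠ 0 → ρ j < ρ i}
        add_mem' := by
          intro a b ha hb
          refine ⟨𝔤.add_mem ha.1 hb.1, fun i j hij => ?_⟩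
          by_cases h : a i j = 0
          · refine hb.2 i j fun h0 => hij ?_
            rw [Matrix.add_apply, h, h0, add_zero]
          · exact ha.2 i j h
        zero_mem' := ⟨𝔤.zero_mem, fun i j hij => absurd rfl hij⟩
        smul_mem' := by
          intro z a ha
          refine ⟨𝔤.smul_mem z ha.1, fun i j hij => ha.2 i j fun h0 => hij ?_⟩
          rw [Matrix.smul_apply, h0, smul_zero] }
    let 𝔥 : Submodule ℂ (Matrix ι ι ℂ) :=
      { carrier := {x | x ∈ 𝔤 ∧ ∀ i j, i ≠ j → x i j = 0}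
        add_mem' := by
          intro a b ha hb
          exact ⟨𝔤.add_mem ha.1 hb.1, fun i j hij => by
            rw [Matrix.add_apply, ha.2 i j hij, hb.2 i j hij, add_zero]⟩
        zero_mem' := ⟨𝔤.zero_mem, fun i j _ => rfl⟩
        smul_mem' := by
          intro z a ha
          exact ⟨𝔤.smul_mem z ha.1, fun i j hij => by
            rw [Matrix.smul_apply, ha.2 i j hij, smul_zero]⟩ }
    have hstar : IsStar (𝔤.map (dTPL (ι := ι) k)) := by
      rintro x ⟨y, hy, rfl⟩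
      exact ⟨yᴴ, A.star y hy, by rw [dTPL_apply, dTPL_apply, dTP_conjTranspose]⟩
    have hlie : IsLie (𝔤.map (dTPL (ι := ι) k)) := by
      rintro x ⟨y, hy, rfl⟩ x' ⟨y', hy', rfl⟩
      exact ⟨y * y' - y' * y, A.lie y hy y' hy', by
        rw [dTPL_apply, dTPL_apply, dTPL_apply, dTP_comm]⟩
    have hkill : ∀ x ∈ 𝔫, dTP x k *ᵥ ω = 0 := by
      intro x hx
      rw [w3 x fun i hi s => ?_]
      · have : ∑ s, x (c s) (c s) = 0 := by
          refine Finset.sum_eq_zero fun s _ => ?_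
          by_contra h0
          exact lt_irrefl _ (hx.2 _ _ h0)
        rw [this, zero_smul]
      · by_contra h0
        exact hi ((hrange i).2 ((hcs s).trans (hx.2 _ _ h0).le))
    obtain ⟨E, hE1, hE2, _, hE4⟩ := hD (Fin k → ι) (𝔤.map (dTPL k)) (𝔫.map (dTPL k)) (𝔥.map (dTPL k))
      hstar hlie (Submodule.map_mono fun x hx => hx.1) (Submodule.map_mono fun x hx => hx.1)
      (by
        rintro x ⟨y, hy, rfl⟩
        obtain ⟨a, ha, b, hb, d, hd, ha1, hb1, hd1, rfl⟩ := A.split hy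
        refine ⟨_, ⟨a, ⟨ha, ha1⟩, rfl⟩, _, ⟨bᴴ, ⟨A.star b hb, ?_⟩, rfl⟩, _, ⟨d, ⟨hd, hd1⟩, rfl⟩, ?_⟩
        · intro i j hij
          refine hb1 j i fun h0 => hij ?_
          rw [Matrix.conjTranspose_apply, h0, star_zero]
        · rw [dTPL_apply, dTPL_apply, dTPL_apply, dTPL_apply, dTP_conjTranspose,
            Matrix.conjTranspose_conjTranspose, dTP_add, dTP_add])
      (Submodule.span ℂ {ω})
      (by
        rintro x ⟨y, hy, rfl⟩ w hw
        obtain ⟨z, rfl⟩ := Submodule.mem_span_singleton.1 hw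
        rw [dTPL_apply, Matrix.mulVec_smul, hkill y hy, smul_zero])
      (by
        rintro x ⟨y, hy, rfl⟩ w hw
        obtain ⟨z, rfl⟩ := Submodule.mem_span_singleton.1 hw
        rw [dTPL_apply, Matrix.mulVec_smul, w3 y fun i hi s => ?_]
        · exact Submodule.smul_mem _ _ (Submodule.smul_mem _ _ (Submodule.mem_span_singleton_self ω))
        · refine hy.2 i (c s) fun h0 => hi ⟨s, h0.symm⟩)
    obtain ⟨P, _, hP2, hP3, hP4⟩ := hP (Fin k → ι) E
    have hPTw : Tw 𝔤 k k P := by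
      intro x hx
      refine hP4 _ (fun w hw => hE2 _ ⟨x, hx, rfl⟩ w hw) fun w hw => ?_
      rw [← dTP_conjTranspose]
      exact hE2 _ ⟨xᴴ, A.star x hx, rfl⟩ w hw
    have hPCm := hTw k hkle P hPTw
    have hωE : ω ∈ E := hE1 (Submodule.mem_span_singleton_self ω)
    have hω'E : TP v k *ᵥ ω ∈ E := by
      have h1 : P *ᵥ (TP v k *ᵥ ω) = TP v k *ᵥ ω := by
        rw [Matrix.mulVec_mulVec, ← hPCm, ← Matrix.mulVec_mulVec, hP3 ω hωE]
      rw [← h1]; exact hP2 _
    -- killing by homogeneous elements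
    have hkill1 : ∀ e ∈ 𝔤, ∀ a a' : ℝ, 0 < a → (∀ i j, e i j ≠ 0 → ρ i - ρ j = a) →
        (∀ i j, e i j ≠ 0 → ρ' i - ρ' j = a') → dTP e k *ᵥ (TP v k *ᵥ ω) = 0 := by
      intro e he a a' ha h h'
      by_cases he0 : e = 0
      · rw [he0, dTP_zero, Matrix.zero_mulVec]
      have ha' := FL1 A.star hpos he he0 ha h h'
      have h1 := hconj e he a' h'
      have he' : vᴴ * e * v ∈ 𝔤 := hv2 e he
      have h2 : TP v k * dTP (vᴴ * e * v) k = dTP e k * TP v k := by
        rw [TP_mul_dTP hv' (vᴴ * e * v) k]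
        congr 2
        have : v * (vᴴ * e * v) * vᴴ = (v * vᴴ) * e * (v * vᴴ) := by noncomm_ring
        rw [this, hv, Matrix.one_mul, Matrix.mul_one]
      rw [Matrix.mulVec_mulVec, ← h2, ← Matrix.mulVec_mulVec]
      rcases ha'.lt_or_eq with hlt | heq
      · have h3 : dTP (vᴴ * e * v) k *ᵥ ω = 0 := hkill _ ⟨he', fun i j hij => by
          have := h1 i j hij
          linarith⟩
        rw [h3, Matrix.mulVec_zero]
      · exfalso
        have hd : ∀ i j, i ≠ j → (vᴴ * e * v) i j = 0 := A.diag _ he' fun i j hij => by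
          have := h1 i j hij
          linarith
        have hdiag : vᴴ * e * v = diagonal fun i => (vᴴ * e * v) i i := by
          ext i j
          by_cases hij : i = j
          · subst hij; rw [diagonal_apply_eq]
          · rw [hd i j hij, diagonal_apply_ne _ hij]
        have hnorm : (vᴴ * e * v) * (vᴴ * e * v)ᴴ - (vᴴ * e * v)ᴴ * (vᴴ * e * v) = 0 := by
          rw [hdiag, Matrix.diagonal_conjTranspose, Matrix.diagonal_mul_diagonal, Matrix.diagonal_mul_diagonal,
            sub_eq_zero]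
          congr 1
          funext i
          rw [mul_comm]
        have hnorm2 : e * eᴴ - eᴴ * e = 0 := by
          have h4 : (vᴴ * e * v)ᴴ = vᴴ * eᴴ * v := by
            rw [Matrix.conjTranspose_mul, Matrix.conjTranspose_mul, Matrix.conjTranspose_conjTranspose,
              Matrix.mul_assoc]
          rw [h4] at hnorm
          have h5 : (vᴴ * e * v) * (vᴴ * eᴴ * v) - (vᴴ * eᴴ * v) * (vᴴ * e * v) =
              vᴴ * (e * eᴴ - eᴴ * e) * v := by
            have : (vᴴ * e * v) * (vᴴ * eᴴ * v) - (vᴴ * eᴴ * v) * (vᴴ * e * v) =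
              vᴴ * (e * (v * vᴴ) * eᴴ - eᴴ * (v * vᴴ) * e) * v := by noncomm_ring
            rw [this, hv, Matrix.mul_one, Matrix.mul_one]
          rw [h5] at hnorm
          have h6 : v * (vᴴ * (e * eᴴ - eᴴ * e) * v) * vᴴ = (v * vᴴ) * (e * eᴴ - eᴴ * e) * (v * vᴴ) := by
            noncomm_ring
          rw [hnorm, hv, Matrix.one_mul, Matrix.mul_one, Matrix.mul_zero, Matrix.zero_mul] at h6
          exact h6.symm
        exact he0 (normal_zero ha h hnorm2)
    have hω'0 : ∀ x ∈ 𝔫.map (dTPL k), x *ᵥ (TP v k *ᵥ ω) = 0 := by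
      rintro x ⟨y, hy, rfl⟩
      rw [dTPL_apply]
      have hdec : y = ∑ a ∈ Df ρ, ∑ a' ∈ Df ρ', prt ρ' (fun b => b = a') (prt ρ (fun b => b = a) y) := by
        conv_lhs => rw [← sum_prt ρ y]
        exact Finset.sum_congr rfl fun a _ => (sum_prt ρ' _).symm
      rw [hdec, dTP_sum, Matrix.sum_mulVec]
      refine Finset.sum_eq_zero fun a _ => ?_
      rw [dTP_sum, Matrix.sum_mulVec]
      refine Finset.sum_eq_zero fun a' _ => ?_
      have hm : prt ρ' (fun b => b = a') (prt ρ (fun b => b = a) y) ∈ 𝔤 :=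
        prt_mem A.lie hX _ (prt_mem A.lie A.mem _ hy.1)
      by_cases h0 : prt ρ' (fun b => b = a') (prt ρ (fun b => b = a) y) = 0
      · rw [h0, dTP_zero, Matrix.zero_mulVec]
      have hent : ∀ i j, prt ρ' (fun b => b = a') (prt ρ (fun b => b = a) y) i j ≠ 0 →
          ρ i - ρ j = a ∧ ρ' i - ρ' j = a' ∧ y i j ≠ 0 := by
        intro i j hij
        simp only [prt, Matrix.of_apply] at hij
        split_ifs at hij with h1 h2
        · exact ⟨h2, h1, hij⟩
        · exact absurd rfl hij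
        · exact absurd rfl hij
      obtain ⟨i, j, hij⟩ := exists_entry h0
      obtain ⟨q1, _, q3⟩ := hent i j hij
      have ha : 0 < a := by
        have := hy.2 i j q3
        linarith
      exact hkill1 _ hm a a' ha (fun i j h => (hent i j h).1) fun i j h => (hent i j h).2.1
    have hω'Ω := hE4 _ hω'E hω'0
    obtain ⟨a, ha⟩ := Submodule.mem_span_singleton.1 hω'Ω
    have hfin := w5 v a hdet ha.symm
    intro i j hj hi
    obtain ⟨s, rfl⟩ := (hrange j).2 hj
    exact hfin i (fun hmem => by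
      have := (hrange i).1 hmem
      linarith) s
  -- the other half by unitarity
  have hrow : ∀ i, ∑ j, ‖v i j‖ ^ 2 = 1 := by
    intro i
    have h1 := congrFun (congrFun hv i) i
    rw [Matrix.mul_apply, Matrix.one_apply_eq] at h1
    have h2 : ((∑ j, ‖v i j‖ ^ 2 : ℝ) : ℂ) = 1 := by
      rw [← h1]
      push_cast
      refine Finset.sum_congr rfl fun j _ => ?_
      rw [Matrix.conjTranspose_apply, Complex.star_def, Complex.mul_conj, Complex.normSq_eq_norm_sq]
      push_cast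
      rfl
    exact_mod_cast h2
  have hcol : ∀ j, ∑ i, ‖v i j‖ ^ 2 = 1 := by
    intro j
    have h1 := congrFun (congrFun hv' j) j
    rw [Matrix.mul_apply, Matrix.one_apply_eq] at h1
    have h2 : ((∑ i, ‖v i j‖ ^ 2 : ℝ) : ℂ) = 1 := by
      rw [← h1]
      push_cast
      refine Finset.sum_congr rfl fun i _ => ?_
      rw [Matrix.conjTranspose_apply, Complex.star_def, mul_comm, Complex.mul_conj, Complex.normSq_eq_norm_sq]
      push_cast
      rfl
    exact_mod_cast h2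
  intro i j hij
  rcases lt_trichotomy (ρ i) (ρ j) with h | h | h
  · exact absurd (hlow (ρ j) i j le_rfl h) hij
  · exact h
  · exfalso
    set t := ρ i with ht
    set J : Finset ι := Finset.univ.filter fun l => t ≤ ρ l with hJ
    have e1 : ∑ l ∈ J, ∑ m, ‖v m l‖ ^ 2 = J.card := by
      rw [Finset.sum_congr rfl fun l _ => hcol l]; simp
    have e2 : ∑ m ∈ J, ∑ l, ‖v m l‖ ^ 2 = J.card := by
      rw [Finset.sum_congr rfl fun l _ => hrow l]; simp
    have e3 : ∑ l ∈ J, ∑ m, ‖v m l‖ ^ 2 = ∑ l ∈ J, ∑ m ∈ J, ‖v m l‖ ^ 2 := by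
      refine Finset.sum_congr rfl fun l hl => ?_
      symm
      refine Finset.sum_subset (Finset.subset_univ _) fun m _ hm => ?_
      rw [hJ, Finset.mem_filter] at hl hm
      push Not at hm
      rw [hlow t m l hl.2 (hm (Finset.mem_univ _))]
      simp
    have e4 : ∑ m ∈ J, ∑ l, ‖v m l‖ ^ 2 = ∑ m ∈ J, ∑ l ∈ J, ‖v m l‖ ^ 2 + ∑ m ∈ J, ∑ l ∈ Jᶜ, ‖v m l‖ ^ 2 := by
      rw [← Finset.sum_add_distrib]
      exact Finset.sum_congr rfl fun m _ => (Finset.sum_add_sum_compl J _).symm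
    have e5 : ∑ m ∈ J, ∑ l ∈ Jᶜ, ‖v m l‖ ^ 2 = 0 := by
      have e6 : ∑ l ∈ J, ∑ m ∈ J, ‖v m l‖ ^ 2 = ∑ m ∈ J, ∑ l ∈ J, ‖v m l‖ ^ 2 := Finset.sum_comm
      linarith
    have hiJ : i ∈ J := by rw [hJ, Finset.mem_filter]; exact ⟨Finset.mem_univ _, le_rfl⟩
    have hjJ : j ∈ Jᶜ := by
      rw [Finset.mem_compl, hJ, Finset.mem_filter]
      push Not
      exact fun _ => h
    have e6 := (Finset.sum_eq_zero_iff_of_nonneg (fun m _ => Finset.sum_nonneg fun l _ => by positivity)).1 e5 i hiJ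
    have e7 := (Finset.sum_eq_zero_iff_of_nonneg (fun l _ => by positivity)).1 e6 j hjJ
    apply hij
    simpa using e7

end Pool.Agent.Q239.ZG
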