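import Pool.Agent.Q271.ZG.Basic
import Pool.Agent.Q271.ZG.Stm
import Pool.Agent.Q271.ZG.Stm2
import Pool.Agent.Q251.ZG.STAR

set_option autoImplicit false
set_option linter.unusedSectionVars false

/-! Project ZG, job GAL, part A: minimal idempotents of the centre of the commutant. -/

namespace Pool.Agent.Q239.ZG.GL

open Matrix Pool.Agent.Q60.ED Pool.Agent.Q271.ZG

variable {ι : Type} [Fintype ι] [DecidableEq ι]

/-! ### traces of idempotents -/

theorem tr_idem (e : Matrix ι ι ℂ) (h : e * e = e) : ∃ r : ℕ, e.trace = r ∧ r ≤ Fintype.card ι := by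
  have h1 : IsIdempotentElem (Matrix.toLin' e) := by
    unfold IsIdempotentElem
    rw [Module.End.mul_eq_comp, ← Matrix.toLin'_mul, h]
  refine ⟨Module.finrank ℂ (LinearMap.range (Matrix.toLin' e)), ?_, ?_⟩
  · rw [← (LinearMap.IsIdempotentElem.isProj_range _ h1).trace, Matrix.trace_toLin'_eq]
  · have := Submodule.finrank_le (LinearMap.range (Matrix.toLin' e))
    rwa [Module.finrank_fintype_fun_eq_card] at this

/-! ### minimal idempotents -/

/-- minimal idempotents -/
def MinI (𝔤 : Submodule ℂ (Matrix ι ι ℂ)) (e : Matrix ι ι ℂ) : Prop :=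
  e ∈ Ctr 𝔤 ∧ e * e = e ∧ e ≠ 0 ∧ ∀ z ∈ Ctr 𝔤, ∃ c : ℂ, z * e = c • e

theorem Ctr_comm {𝔤 : Submodule ℂ (Matrix ι ι ℂ)} {z w : Matrix ι ι ℂ} (hz : z ∈ Ctr 𝔤) (hw : w ∈ Ctr 𝔤) :
    z * w = w * z := hz.2 w hw.1

theorem orth {𝔤 : Submodule ℂ (Matrix ι ι ℂ)} {e f : Matrix ι ι ℂ} (he : MinI 𝔤 e) (hf : MinI 𝔤 f)
    (hne : e ≠ f) : e * f = 0 := by
  obtain ⟨a, ha⟩ := hf.2.2.2 e he.1
  obtain ⟨b, hb⟩ := he.2.2.2 f hf.1
  by_cases h0 : a = 0
  · rw [ha, h0, zero_smul]
  exfalso
  rw [Ctr_comm hf.1 he.1, ha] at hb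
  -- a • f = b • e
  have h1 : f = (b / a) • e := by
    rw [div_eq_inv_mul, mul_smul, ← hb, smul_smul, inv_mul_cancel₀ h0, one_smul]
  have h2 := hf.2.1
  rw [h1, Matrix.smul_mul, Matrix.mul_smul, he.2.1, smul_smul] at h2
  have h3 : ((b / a) * (b / a) - (b / a)) • e = 0 := by rw [sub_smul, h2, sub_self]
  rcases smul_eq_zero.1 h3 with h4 | h4
  · have h5 : (b / a) * (b / a - 1) = 0 := by linear_combination h4
    rcases mul_eq_zero.1 h5 with h6 | h6
    · rw [h6, zero_smul] at h1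
      exact hf.2.2.1 h1
    · rw [sub_eq_zero.1 h6, one_smul] at h1
      exact hne h1.symm
  · exact he.2.2.1 h4

/-- coordinates in which the centre is diagonal -/
theorem coords (hS : S_STAR) (hA : S_ADAPT) (V : PHS ι) : ∃ g g' : Matrix ι ι ℂ, g * g' = 1 ∧ g' * g = 1 ∧
    (∀ z ∈ Ctr (hLie V), ∀ i j, i ≠ j → (g * z * g') i j = 0) ∧
    ∀ f : ι → ℂ, (∀ j k, (∀ z ∈ Ctr (hLie V), (g * z * g') j j = (g * z * g') k k) → f j = f k) →
      g' * diagonal f * g ∈ Ctr (hLie V) := by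
  obtain ⟨B, B', hB, h1, h2⟩ := hS ι V
  obtain ⟨U, ρ, hU, A⟩ := hA ι _ h1 h2
  have hB' : B' * B = 1 := mul_eq_one_comm.1 hB
  have hU' : Uᴴ * U = 1 := mul_eq_one_comm.1 hU
  have hg : (U * B) * (B' * Uᴴ) = 1 := by
    have : (U * B) * (B' * Uᴴ) = U * (B * B') * Uᴴ := by simp only [Matrix.mul_assoc]
    rw [this, hB, Matrix.mul_one, hU]
  have hg' : (B' * Uᴴ) * (U * B) = 1 := mul_eq_one_comm.1 hg
  set g := U * B with hgdef
  set g' := B' * Uᴴ with hg'def
  set 𝔨 := cj U Uᴴ (cj B B' (hLie V)) with h𝔨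
  have hmem : ∀ y, y ∈ 𝔨 ↔ ∃ x ∈ hLie V, g * x * g' = y := by
    intro y
    rw [h𝔨, mem_cj]
    constructor
    · rintro ⟨w, hw, rfl⟩
      obtain ⟨x, hx, rfl⟩ := mem_cj.1 hw
      exact ⟨x, hx, by rw [hgdef, hg'def]; simp only [Matrix.mul_assoc]⟩
    · rintro ⟨x, hx, rfl⟩
      exact ⟨B * x * B', mem_cj.2 ⟨x, hx, rfl⟩, by rw [hgdef, hg'def]; simp only [Matrix.mul_assoc]⟩
  have e1 : ∀ x y : Matrix ι ι ℂ, (g * x * g') * (g * y * g') = g * (x * y) * g' := by
    intro x y
    have : (g * x * g') * (g * y * g') = g * x * (g' * g) * y * g' := by simp only [Matrix.mul_assoc]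
    rw [this, hg', Matrix.mul_one]; simp only [Matrix.mul_assoc]
  have e2 : ∀ x : Matrix ι ι ℂ, g * (g' * x * g) * g' = x := by
    intro x
    have : g * (g' * x * g) * g' = (g * g') * x * (g * g') := by simp only [Matrix.mul_assoc]
    rw [this, hg, Matrix.one_mul, Matrix.mul_one]
  have e3 : ∀ x : Matrix ι ι ℂ, g' * (g * x * g') * g = x := by
    intro x
    have : g' * (g * x * g') * g = (g' * g) * x * (g' * g) := by simp only [Matrix.mul_assoc]
    rw [this, hg', Matrix.one_mul, Matrix.mul_one]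
  have einj : ∀ x y : Matrix ι ι ℂ, g * x * g' = g * y * g' → x = y := by
    intro x y h
    rw [← e3 x, h, e3 y]
  have e4 : ∀ x y : Matrix ι ι ℂ, g * ((g' * x * g) * y) * g' = x * (g * y * g') := by
    intro x y; rw [← e1, e2]
  have e5 : ∀ x y : Matrix ι ι ℂ, g * (y * (g' * x * g)) * g' = (g * y * g') * x := by
    intro x y; rw [← e1, e2]
  have hC1 : ∀ z ∈ Ctr (hLie V), g * z * g' ∈ Ctr 𝔨 := by
    intro z hz
    refine ⟨fun y hy => ?_, fun c hc => ?_⟩
    · obtain ⟨x, hx, rfl⟩ := (hmem y).1 hy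
      rw [e1, e1, hz.1 x hx]
    · have h3 : ∀ x ∈ hLie V, (g' * c * g) * x = x * (g' * c * g) := by
        intro x hx
        apply einj
        rw [e4, e5]
        exact hc _ ((hmem _).2 ⟨x, hx, rfl⟩)
      have h4 := hz.2 _ h3
      rw [← e5, h4, e4]
  have hC2 : ∀ w ∈ Ctr 𝔨, g' * w * g ∈ Ctr (hLie V) := by
    intro w hw
    refine ⟨fun x hx => ?_, fun c hc => ?_⟩
    · apply einj
      rw [e4, e5]
      exact hw.1 _ ((hmem _).2 ⟨x, hx, rfl⟩)
    · have h3 : ∀ y ∈ 𝔨, (g * c * g') * y = y * (g * c * g') := by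
        intro y hy
        obtain ⟨x, hx, rfl⟩ := (hmem y).1 hy
        rw [e1, e1, hc x hx]
      have h4 := hw.2 _ h3
      apply einj
      rw [e4, e5]
      exact h4
  refine ⟨g, g', hg, hg', fun z hz => A.ctr _ (hC1 z hz), fun f hf => ?_⟩
  refine hC2 _ (Ctr_diagonal (fun z hz => A.ctr z hz) f fun j k h => hf j k fun z hz => h _ (hC1 z hz))

/-- the minimal idempotents: finiteness and completeness -/
theorem minI_fin (hS : S_STAR) (hA : S_ADAPT) (V : PHS ι) :
    ∃ D : ι → Matrix ι ι ℂ, (∀ i, MinI (hLie V) (D i)) ∧ (∀ e, MinI (hLie V) e → ∃ i, D i = e) ∧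
      ∀ r ∈ Ctr (hLie V), (∀ i, r * D i = 0) → r = 0 := by
  classical
  obtain ⟨g, g', hg, hg', hd, hf⟩ := coords hS hA V
  have e1 : ∀ x y : Matrix ι ι ℂ, (g * x * g') * (g * y * g') = g * (x * y) * g' := by
    intro x y
    have : (g * x * g') * (g * y * g') = g * x * (g' * g) * y * g' := by simp only [Matrix.mul_assoc]
    rw [this, hg', Matrix.mul_one]; simp only [Matrix.mul_assoc]
  have e2 : ∀ x : Matrix ι ι ℂ, g * (g' * x * g) * g' = x := by
    intro x
    have : g * (g' * x * g) * g' = (g * g') * x * (g * g') := by simp only [Matrix.mul_assoc]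
    rw [this, hg, Matrix.one_mul, Matrix.mul_one]
  have e3 : ∀ x : Matrix ι ι ℂ, g' * (g * x * g') * g = x := by
    intro x
    have : g' * (g * x * g') * g = (g' * g) * x * (g' * g) := by simp only [Matrix.mul_assoc]
    rw [this, hg', Matrix.one_mul, Matrix.mul_one]
  have einj : ∀ x y : Matrix ι ι ℂ, g * x * g' = g * y * g' → x = y := by
    intro x y h
    rw [← e3 x, h, e3 y]
  -- the relation
  set cl : ι → ι → Prop := fun i k => ∀ z ∈ Ctr (hLie V), (g * z * g') i i = (g * z * g') k k with hcl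
  have hrefl : ∀ i, cl i i := fun i z _ => rfl
  set χ : ι → ι → ℂ := fun i k => if cl i k then 1 else 0 with hχ
  set D : ι → Matrix ι ι ℂ := fun i => g' * diagonal (χ i) * g with hD
  have hgD : ∀ i, g * D i * g' = diagonal (χ i) := fun i => e2 _
  have hDC : ∀ i, D i ∈ Ctr (hLie V) := by
    intro i
    refine hf _ fun j k hjk => ?_
    simp only [hχ]
    have : cl i j ↔ cl i k := by
      constructor
      · intro h z hz; rw [h z hz, hjk z hz]
      · intro h z hz; rw [h z hz, hjk z hz]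
    simp only [this]
  have hzd : ∀ z ∈ Ctr (hLie V), g * z * g' = diagonal fun k => (g * z * g') k k := by
    intro z hz
    ext i j
    by_cases h : i = j
    · subst h; rw [diagonal_apply_eq]
    · rw [hd z hz i j h, diagonal_apply_ne _ h]
  have hzD : ∀ z ∈ Ctr (hLie V), ∀ i, z * D i = ((g * z * g') i i) • D i := by
    intro z hz i
    apply einj
    rw [← e1, Matrix.mul_smul, Matrix.smul_mul, hgD]
    conv_lhs => rw [hzd z hz]
    rw [Matrix.diagonal_mul_diagonal]
    ext a b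
    by_cases h : a = b
    · subst h
      rw [diagonal_apply_eq, Matrix.smul_apply, diagonal_apply_eq, smul_eq_mul]
      simp only [hχ]
      by_cases hc : cl i a
      · rw [hc z hz]
      · rw [if_neg hc]; ring
    · rw [diagonal_apply_ne _ h, Matrix.smul_apply, diagonal_apply_ne _ h, smul_zero]
  have hDne : ∀ i, D i ≠ 0 := by
    intro i h
    have h1 := hgD i
    rw [h, Matrix.mul_zero, Matrix.zero_mul] at h1
    have h2 := congrFun (congrFun h1 i) i
    rw [diagonal_apply_eq, Matrix.zero_apply] at h2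
    simp only [hχ, if_pos (hrefl i)] at h2
    exact zero_ne_one h2
  have hDi : ∀ i, D i * D i = D i := by
    intro i
    rw [hzD _ (hDC i) i, hgD, diagonal_apply_eq]
    simp only [hχ, if_pos (hrefl i), one_smul]
  have hmin : ∀ i, MinI (hLie V) (D i) := fun i => ⟨hDC i, hDi i, hDne i, fun z hz => ⟨_, hzD z hz i⟩⟩
  have hcomplete : ∀ r ∈ Ctr (hLie V), (∀ i, r * D i = 0) → r = 0 := by
    intro r hr h
    have h1 : ∀ i, (g * r * g') i i = 0 := by
      intro i
      have h2 := h i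
      rw [hzD r hr i] at h2
      exact (smul_eq_zero.1 h2).resolve_right (hDne i)
    apply einj
    rw [hzd r hr, Matrix.mul_zero, Matrix.zero_mul]
    ext a b
    by_cases hab : a = b
    · subst hab; rw [diagonal_apply_eq, h1, Matrix.zero_apply]
    · rw [diagonal_apply_ne _ hab, Matrix.zero_apply]
  refine ⟨D, hmin, fun e he => ?_, hcomplete⟩
  by_contra hno
  push Not at hno
  exact he.2.2.1 (hcomplete e he.1 fun i => orth he (hmin i) fun h => hno i h.symm)

end Pool.Agent.Q239.ZG.GL
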