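import Pool.Agent.Q239.ZG.GALA
import Pool.Agent.W437.HD.Fixed

set_option autoImplicit false
set_option linter.unusedSectionVars false

/-! Project ZG, job GAL, part B: the action of the automorphisms on the minimal idempotents. -/

namespace Pool.Agent.Q239.ZG.GL

open Matrix Pool.Agent.Q60.ED Pool.Agent.Q271.ZG Pool.Agent.Q251.ZG

variable {ι : Type} [Fintype ι] [DecidableEq ι]

theorem map_mul' (σ : ℂ ≃+* ℂ) (a b : Matrix ι ι ℂ) : (a * b).map σ = a.map σ * b.map σ :=
  Matrix.map_mul (f := (σ : ℂ →+* ℂ))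

theorem map_add' (σ : ℂ ≃+* ℂ) (a b : Matrix ι ι ℂ) : (a + b).map σ = a.map σ + b.map σ := by
  ext i j; simp

theorem map_smul' (σ : ℂ ≃+* ℂ) (c : ℂ) (a : Matrix ι ι ℂ) : (c • a).map σ = σ c • a.map σ := by
  ext i j; simp

theorem map_sum' {κ : Type} (σ : ℂ ≃+* ℂ) (s : Finset κ) (f : κ → Matrix ι ι ℂ) :
    (∑ k ∈ s, f k).map σ = ∑ k ∈ s, (f k).map σ := by
  ext i j
  rw [Matrix.map_apply, Matrix.sum_apply, Matrix.sum_apply, map_sum]
  rfl

theorem map_symm (σ : ℂ ≃+* ℂ) (a : Matrix ι ι ℂ) : (a.map σ).map σ.symm = a := by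
  ext i j; simp

theorem map_symm' (σ : ℂ ≃+* ℂ) (a : Matrix ι ι ℂ) : (a.map σ.symm).map σ = a := by
  ext i j; simp

theorem trace_map (σ : ℂ ≃+* ℂ) (a : Matrix ι ι ℂ) : (a.map σ).trace = σ a.trace := by
  rw [Matrix.trace, Matrix.trace, map_sum]
  rfl

theorem Ctr_map (V : PHS ι) (σ : ℂ ≃+* ℂ) {z : Matrix ι ι ℂ} (hz : z ∈ Ctr (hLie V)) :
    z.map σ ∈ Ctr (hLie V) := by
  refine ⟨fun x hx => ?_, fun c hc => ?_⟩
  · have h1 := hz.1 _ (hLie_map σ.symm hx)
    have h2 := congrArg (fun w : Matrix ι ι ℂ => w.map σ) h1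
    simp only [map_mul', map_symm'] at h2
    exact h2
  · have h3 : ∀ x ∈ hLie V, c.map σ.symm * x = x * c.map σ.symm := by
      intro x hx
      have h4 := hc _ (hLie_map σ hx)
      have h5 := congrArg (fun w : Matrix ι ι ℂ => w.map σ.symm) h4
      simp only [map_mul', map_symm] at h5
      exact h5
    have h1 := hz.2 _ h3
    have h2 := congrArg (fun w : Matrix ι ι ℂ => w.map σ) h1
    simp only [map_mul', map_symm'] at h2
    exact h2

theorem minI_map (V : PHS ι) (σ : ℂ ≃+* ℂ) {e : Matrix ι ι ℂ} (h : MinI (hLie V) e) :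
    MinI (hLie V) (e.map σ) := by
  refine ⟨Ctr_map V σ h.1, by rw [← map_mul', h.2.1], fun h0 => h.2.2.1 ?_, fun z hz => ?_⟩
  · rw [← map_symm σ e, h0]
    ext i j; simp
  · obtain ⟨c, hc⟩ := h.2.2.2 _ (Ctr_map V σ.symm hz)
    refine ⟨σ c, ?_⟩
    have h2 := congrArg (fun w : Matrix ι ι ℂ => w.map σ) hc
    simp only [map_mul', map_symm', map_smul'] at h2
    exact h2

/-- the set of the minimal idempotents -/
abbrev Om (V : PHS ι) : Type := {e : Matrix ι ι ℂ // MinI (hLie V) e}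

noncomputable instance act (V : PHS ι) : MulAction (RingAut ℂ) (Om V) where
  smul σ e := ⟨e.1.map σ, minI_map V σ e.2⟩
  one_smul e := Subtype.ext (by
    ext i j
    rfl)
  mul_smul σ τ e := Subtype.ext (by
    ext i j
    rfl)

theorem act_val (V : PHS ι) (σ : RingAut ℂ) (e : Om V) : (σ • e).1 = e.1.map σ := rfl

section

variable (V : PHS ι) [Fintype (Om V)]

/-- the element of the centre with given coefficients -/
noncomputable def Em (f : Om V → ℂ) : Matrix ι ι ℂ := ∑ α, f α • α.1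

variable {V}

theorem Em_mul (f : Om V → ℂ) (α : Om V) : Em V f * α.1 = f α • α.1 := by
  classical
  rw [Em, Finset.sum_mul, Finset.sum_eq_single α]
  · rw [Matrix.smul_mul, α.2.2.1]
  · intro β _ hne
    rw [Matrix.smul_mul, orth β.2 α.2 (fun h => hne (Subtype.ext h)), smul_zero]
  · intro h; exact absurd (Finset.mem_univ _) h

theorem Em_mem (f : Om V → ℂ) : Em V f ∈ Ctr (hLie V) :=
  Ctr_sum _ fun α _ => Ctr_smul _ α.2.1

theorem Em_inj {f g : Om V → ℂ} (h : Em V f = Em V g) : f = g := by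
  funext α
  have h1 := Em_mul f α
  rw [h, Em_mul g α] at h1
  have h2 : (g α - f α) • α.1 = 0 := by rw [sub_smul, h1, sub_self]
  rcases smul_eq_zero.1 h2 with h3 | h3
  · exact (sub_eq_zero.1 h3).symm
  · exact absurd h3 α.2.2.2.1

theorem Em_add (f g : Om V → ℂ) : Em V (f + g) = Em V f + Em V g := by
  rw [Em, Em, Em, ← Finset.sum_add_distrib]
  exact Finset.sum_congr rfl fun α _ => by rw [Pi.add_apply, add_smul]

theorem Em_Em (f g : Om V → ℂ) : Em V f * Em V g = Em V (fun α => f α * g α) := by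
  have h1 : Em V g = ∑ α : Om V, g α • α.1 := rfl
  have h2 : Em V (fun α => f α * g α) = ∑ α : Om V, (f α * g α) • α.1 := rfl
  rw [h1, h2, Finset.mul_sum]
  refine Finset.sum_congr rfl fun α _ => ?_
  rw [Matrix.mul_smul, Em_mul, smul_smul, mul_comm]

theorem Em_map (σ : RingAut ℂ) (f : Om V → ℂ) : (Em V f).map σ = Em V fun α => σ (f (σ⁻¹ • α)) := by
  rw [Em, map_sum']
  have h1 : Em V (fun α => σ (f (σ⁻¹ • α))) = ∑ α : Om V, σ (f (σ⁻¹ • (σ • α))) • (σ • α).1 := by
    rw [Em]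
    exact (Equiv.sum_comp (MulAction.toPerm σ) fun α : Om V => σ (f (σ⁻¹ • α)) • α.1).symm
  rw [h1]
  refine Finset.sum_congr rfl fun α _ => ?_
  rw [map_smul', inv_smul_smul, act_val]

variable (hc : ∀ r ∈ Ctr (hLie V), (∀ α : Om V, r * α.1 = 0) → r = 0)

include hc

theorem Em_one : Em V (fun _ => 1) = 1 := by
  have h1 : (1 : Matrix ι ι ℂ) + (-1 : ℂ) • Em V (fun _ => 1) = 0 := by
    refine hc _ (Ctr_add Ctr_one (Ctr_smul _ (Em_mem _))) fun α => ?_
    rw [Matrix.add_mul, Matrix.one_mul, Matrix.smul_mul, Em_mul, one_smul, neg_smul, one_smul, add_neg_cancel]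
  rw [neg_smul, one_smul, ← sub_eq_add_neg] at h1
  exact (sub_eq_zero.1 h1).symm

theorem exists_Em {z : Matrix ι ι ℂ} (hz : z ∈ Ctr (hLie V)) : ∃ f : Om V → ℂ, z = Em V f := by
  have h1 : ∀ α : Om V, ∃ c : ℂ, z * α.1 = c • α.1 := fun α => α.2.2.2.2 z hz
  choose f hf using h1
  refine ⟨f, ?_⟩
  calc z = z * Em V (fun _ => 1) := by rw [Em_one hc, Matrix.mul_one]
    _ = Em V f := by
      rw [Em, Finset.mul_sum, Em]
      exact Finset.sum_congr rfl fun α _ => by rw [one_smul, hf]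

theorem aeval_Em (f : Om V → ℂ) (p : Polynomial ℂ) : Polynomial.aeval (Em V f) p = Em V fun α => p.eval (f α) := by
  induction p using Polynomial.induction_on' with
  | add p q hp hq =>
    rw [map_add, hp, hq, ← Em_add]
    congr 1
    funext α
    rw [Pi.add_apply, Polynomial.eval_add]
  | monomial n a =>
    rw [Polynomial.aeval_monomial]
    have h1 : (Em V f) ^ n = Em V fun α => (f α) ^ n := by
      induction n with
      | zero => simp only [pow_zero]; exact (Em_one hc).symm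
      | succ n ih => rw [pow_succ, ih, Em_Em]; simp only [pow_succ]
    have h2 : algebraMap ℂ (Matrix ι ι ℂ) a = Em V fun _ => a := by
      rw [Algebra.algebraMap_eq_smul_one, ← Em_one hc, Em, Em, Finset.smul_sum]
      exact Finset.sum_congr rfl fun α _ => by rw [one_smul]
    rw [h1, h2, Em_Em]
    simp only [Polynomial.eval_monomial]

theorem eigInt_iff (f : Om V → ℂ) (Y : ℕ) :
    EigInt Y (Em V f) ↔ ∀ α, ∃ n : ℤ, |n| ≤ Y ∧ f α = n := by
  unfold EigInt
  rw [aeval_Em hc]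
  have h0 : Em V (fun _ => 0) = 0 := by
    rw [Em]; exact Finset.sum_eq_zero fun α _ => zero_smul _ _
  have key : ∀ c : ℂ, (∏ n ∈ Finset.Icc (-(Y : ℤ)) (Y : ℤ), (Polynomial.X - Polynomial.C (n : ℂ))).eval c = 0 ↔
      ∃ n : ℤ, |n| ≤ Y ∧ c = n := by
    intro c
    rw [Polynomial.eval_prod, Finset.prod_eq_zero_iff]
    constructor
    · rintro ⟨n, hn, h⟩
      rw [Polynomial.eval_sub, Polynomial.eval_X, Polynomial.eval_C, sub_eq_zero] at h
      exact ⟨n, abs_le.2 (Finset.mem_Icc.1 hn), h⟩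
    · rintro ⟨n, hn, h⟩
      exact ⟨n, Finset.mem_Icc.2 (abs_le.1 hn), by
        rw [Polynomial.eval_sub, Polynomial.eval_X, Polynomial.eval_C, h, sub_self]⟩
  constructor
  · intro h α
    rw [← h0] at h
    exact (key _).1 (congrFun (Em_inj h) α)
  · intro h
    rw [← h0]
    congr 1
    funext α
    exact (key _).2 (h α)

omit hc [Fintype (Om V)]

/-- integrality of the characters -/
theorem s_int {e : Matrix ι ι ℂ} (he : e ∈ Ctr (hLie V)) (hi : e * e = e) :
    ∃ k : ℤ, (e * H0 V).trace = k ∧ |k| ≤ Fintype.card ι * V.d := by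
  have hH : H0 V ∈ hLie V := by rw [← hH_refl]; exact hH_mem V _
  have hcomm := he.1 _ hH
  have hEe : ∀ w ∈ Finset.range (2 * V.d + 1), ∀ w' ∈ Finset.range (2 * V.d + 1), w ≠ w' →
      V.E w * e * V.E w' = 0 := by
    intro w hw w' hw' hne
    have h1 : V.E w * (H0 V * e) * V.E w' = V.E w * (e * H0 V) * V.E w' := by rw [hcomm]
    have h2 : V.E w * (H0 V * e) * V.E w' = ((w : ℂ) - V.d) • (V.E w * e * V.E w') := by
      rw [← Matrix.mul_assoc (V.E w), E_mul_H hw, Matrix.smul_mul, Matrix.smul_mul]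
    have h3 : V.E w * (e * H0 V) * V.E w' = ((w' : ℂ) - V.d) • (V.E w * e * V.E w') := by
      rw [Matrix.mul_assoc, Matrix.mul_assoc e, H_mul_E hw', Matrix.mul_smul, Matrix.mul_smul, Matrix.mul_assoc]
    rw [h2, h3] at h1
    have h4 : ((w : ℂ) - w') • (V.E w * e * V.E w') = 0 := by
      have : ((w : ℂ) - w') = ((w : ℂ) - V.d) - ((w' : ℂ) - V.d) := by ring
      rw [this, sub_smul, h1, sub_self]
    refine (smul_eq_zero.1 h4).resolve_left fun h0 => hne ?_
    have h5 := sub_eq_zero.1 h0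
    exact_mod_cast h5
  have hc1 : ∀ w ∈ Finset.range (2 * V.d + 1), V.E w * e = V.E w * e * V.E w := by
    intro w hw
    conv_lhs => rw [← Matrix.mul_one (V.E w * e), ← sum_E (V := V), Finset.mul_sum]
    exact Finset.sum_eq_single_of_mem w hw fun w' hw' hne => hEe w hw w' hw' (Ne.symm hne)
  have hc2 : ∀ w ∈ Finset.range (2 * V.d + 1), e * V.E w = V.E w * e * V.E w := by
    intro w hw
    conv_lhs => rw [← Matrix.one_mul (e * V.E w), ← sum_E (V := V), Finset.sum_mul]
    rw [Finset.sum_eq_single_of_mem w hw fun w' hw' hne => by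
      rw [← Matrix.mul_assoc]; exact hEe w' hw' w hw hne]
    rw [Matrix.mul_assoc]
  have hidem : ∀ w ∈ Finset.range (2 * V.d + 1), (V.E w * e) * (V.E w * e) = V.E w * e := by
    intro w hw
    calc (V.E w * e) * (V.E w * e) = (V.E w * e * V.E w) * e := by simp only [Matrix.mul_assoc]
      _ = V.E w * e * e := by rw [← hc1 w hw]
      _ = V.E w * e := by rw [Matrix.mul_assoc, hi]
  have hr : ∀ w, ∃ r : ℕ, w ∈ Finset.range (2 * V.d + 1) → (V.E w * e).trace = r := by
    intro w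
    by_cases hw : w ∈ Finset.range (2 * V.d + 1)
    · obtain ⟨r, hr, _⟩ := tr_idem _ (hidem w hw)
      exact ⟨r, fun _ => hr⟩
    · exact ⟨0, fun h => absurd h hw⟩
  choose r hr using hr
  obtain ⟨R, hR, hRle⟩ := tr_idem e hi
  have hsum : ∑ w ∈ Finset.range (2 * V.d + 1), r w = R := by
    have h1 : e.trace = ∑ w ∈ Finset.range (2 * V.d + 1), (V.E w * e).trace := by
      rw [← Matrix.trace_sum, ← Finset.sum_mul, sum_E, Matrix.one_mul]
    rw [hR, Finset.sum_congr rfl fun w hw => hr w hw] at h1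
    exact_mod_cast h1.symm
  refine ⟨∑ w ∈ Finset.range (2 * V.d + 1), ((w : ℤ) - V.d) * r w, ?_, ?_⟩
  · rw [H0, Finset.mul_sum, Matrix.trace_sum]
    push_cast
    refine Finset.sum_congr rfl fun w hw => ?_
    rw [Matrix.mul_smul, Matrix.trace_smul, Matrix.trace_mul_comm, hr w hw, smul_eq_mul]
  · calc |∑ w ∈ Finset.range (2 * V.d + 1), ((w : ℤ) - V.d) * r w|
        ≤ ∑ w ∈ Finset.range (2 * V.d + 1), |((w : ℤ) - V.d) * r w| := Finset.abs_sum_le_sum_abs _ _
      _ ≤ ∑ w ∈ Finset.range (2 * V.d + 1), (V.d : ℤ) * r w := by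
          refine Finset.sum_le_sum fun w hw => ?_
          rw [abs_mul, abs_of_nonneg (Int.natCast_nonneg (r w))]
          refine mul_le_mul_of_nonneg_right ?_ (Int.natCast_nonneg _)
          rw [Finset.mem_range] at hw
          rw [abs_le]
          constructor <;> omega
      _ = (V.d : ℤ) * R := by rw [← Finset.mul_sum, ← hsum]; push_cast; rfl
      _ ≤ Fintype.card ι * V.d := by
          rw [mul_comm]
          refine mul_le_mul_of_nonneg_right ?_ (Int.natCast_nonneg _)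
          exact_mod_cast hRle

/-- vanishing of traces -/
theorem tr_zero {z : Matrix ι ι ℂ} (hz : z ∈ Ctr (hLie V))
    (h : ∀ σ : ℂ ≃+* ℂ, (z * (H0 V).map σ).trace = 0) : ∀ x ∈ hLie V, (z * x).trace = 0 := by
  let 𝔫 : Submodule ℂ (Matrix ι ι ℂ) :=
    { carrier := {x | x ∈ hLie V ∧ (z * x).trace = 0}
      add_mem' := by
        intro a b ha hb
        exact ⟨(hLie V).add_mem ha.1 hb.1, by rw [Matrix.mul_add, Matrix.trace_add, ha.2, hb.2, add_zero]⟩
      zero_mem' := ⟨(hLie V).zero_mem, by rw [Matrix.mul_zero, Matrix.trace_zero]⟩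
      smul_mem' := by
        intro c a ha
        exact ⟨(hLie V).smul_mem c ha.1, by rw [Matrix.mul_smul, Matrix.trace_smul, ha.2, smul_zero]⟩ }
  have hle : hLie V ≤ 𝔫 := by
    refine hLie_le V (fun σ => ⟨hH_mem V σ, h σ⟩) ?_
    intro x hx y hy
    refine ⟨hLie_lie V x hx.1 y hy.1, ?_⟩
    have h1 := hz.1 x hx.1
    rw [Matrix.mul_sub, Matrix.trace_sub, ← Matrix.mul_assoc, h1, Matrix.mul_assoc x, Matrix.trace_mul_comm x,
      Matrix.mul_assoc z y, sub_self]
  exact fun x hx => (hle hx).2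

end

end Pool.Agent.Q239.ZG.GL
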